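import Pool.Agent.H34.PS.PmfLow
import Pool.Agent.H34.PS.Head
import Pool.Agent.H34.PS.BinSup

/-! Second moment: a random word of length `2 m` contains a typical vector `z` of size `m` with
probability at least `κ m ^ (-(n-2)/2)`. -/

/- Sketch (second moment). For `k < m` let `H k` be the event on words `w` of length `2 m`: `w`
has `b₁` at position `k`, the factor of length `m` starting at `k` has letter counts `z`, and the
letter at position `k + m` is `b₂`. `H k ⊆ Hit`. By `Ex_append` (split `k + m + 1 + (m - k - 1)`)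
`Pr (H k) = Pr p m {head b₁, counts z} * p b₂ =: P₁ * p b₂`, and by `Pr_head`
`P₁ = (z b₁ / m) * Pr p m {counts z}`, `z b₁/m ≥ κ'` (since `z b₁ ≥ 1` and `z b₁ ≥ m p - C sqrt m`).
So `E[#] = m P₁ p b₂ ≥ κ'' m^(1-(n-1)/2)` by `pmf_low`. For `k < k' < m`, `j = k' - k`:
`H k ∩ H k'` forces the factor of length `j` starting at `k + m` to have the same letter counts as
the factor of length `j` starting at `k`, which is independent of the first `k + m` letters:
`Pr (H k ∩ H k') ≤ P₁ * C/sqrt j` by `pmf_sup`. Hence `E[#^2] ≤ E[#] (1 + C' ∑_{j<m} 1/sqrt j)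
≤ E[#] * C'' sqrt m` and by Cauchy-Schwarz `Pr(Hit) ≥ (E[#])^2/E[#^2] ≥ κ m^(1/2-(n-1)/2)`. -/

namespace H34.PS

/-- words starting with `b` and with letter counts `z` -/
private def blk_A {n : ℕ} (z : Fin n → ℕ) (b : Fin n) : Set (List (Fin n)) :=
  {w | (∃ w', w = b :: w') ∧ ∀ i, w.count i = z i}

/-- words starting with `b` -/
private def blk_B {n : ℕ} (b : Fin n) : Set (List (Fin n)) := {w | ∃ w', w = b :: w'}

/-- a hit at position `k` -/
private def blk_H {n : ℕ} (z : Fin n → ℕ) (m : ℕ) (b₁ b₂ : Fin n) (k : ℕ) : Set (List (Fin n)) :=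
  {w | (w.drop k).take m ∈ blk_A z b₁ ∧ w.drop (k + m) ∈ blk_B b₂}

private theorem blk_H_hit {n : ℕ} {z : Fin n → ℕ} {m : ℕ} {b₁ b₂ : Fin n} {k : ℕ}
    {w : List (Fin n)} (h : w ∈ blk_H z m b₁ b₂ k) : Hit z b₁ b₂ w := by
  obtain ⟨⟨⟨v, hv⟩, hz⟩, ⟨v', hv'⟩⟩ := h
  refine ⟨w.take k, v, v', ?_, ?_⟩
  · rw [← hv, ← hv', List.append_assoc, ← List.drop_drop, List.take_append_drop,
      List.take_append_drop]
  · intro i
    rw [← hv]
    exact hz i

private theorem blk_ex {n : ℕ} (p : Fin n → ℝ) (hs : ∑ i, p i = 1) (k m l : ℕ)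
    (f : List (Fin n) → ℝ) (g : List (Fin n) → List (Fin n) → ℝ)
    (h : ∀ u x y : List (Fin n), u.length = k → x.length = m → y.length = l →
      f (u ++ (x ++ y)) = g x y) :
    Ex p (k + (m + l)) f = Ex p m (fun x => Ex p l (fun y => g x y)) := by
  rw [Ex_append]
  rw [Ex_congr p k _ (fun _ => Ex p m (fun x => Ex p l (fun y => g x y))) (by
    intro u hu
    rw [Ex_append]
    refine Ex_congr p m _ _ fun x hx => ?_
    refine Ex_congr p l _ _ fun y hy => ?_
    exact h u x y hu hx hy)]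
  exact Ex_const p hs k _

private theorem blk_first {n : ℕ} (p : Fin n → ℝ) (hs : ∑ i, p i = 1) (b : Fin n) {l : ℕ}
    (hl : 1 ≤ l) : Ex p l ((blk_B b).indicator 1) = p b := by
  obtain ⟨l, rfl⟩ := Nat.exists_eq_add_of_le hl
  rw [Nat.add_comm, Ex_succ]
  have h : ∀ a, Ex p l (fun w => (blk_B b).indicator 1 (a :: w)) = if a = b then 1 else 0 := by
    intro a
    by_cases hab : a = b
    · rw [if_pos hab, ← Ex_const p hs l 1]
      refine Ex_congr p l _ _ fun w _ => ?_
      rw [Set.indicator_of_mem]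
      · rfl
      · exact ⟨w, by rw [hab]⟩
    · rw [if_neg hab, ← Ex_zero_fun p l]
      refine Ex_congr p l _ _ fun w _ => ?_
      rw [Set.indicator_of_notMem]
      rintro ⟨w', hw'⟩
      exact hab (List.cons.inj hw').1
  rw [Finset.sum_congr rfl fun a _ => by rw [h a]]
  simp

private theorem blk_ind_sq (S : Set (List (Fin n))) (w : List (Fin n)) :
    S.indicator (1 : List (Fin n) → ℝ) w * S.indicator 1 w = S.indicator 1 w := by
  by_cases h : w ∈ S
  · rw [Set.indicator_of_mem h]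
    simp
  · rw [Set.indicator_of_notMem h]
    simp

private theorem blk_one {n : ℕ} (p : Fin n → ℝ) (hs : ∑ i, p i = 1) (z : Fin n → ℕ) (m : ℕ)
    (b₁ b₂ : Fin n) {k : ℕ} (hk : k < m) :
    Ex p (2 * m) ((blk_H z m b₁ b₂ k).indicator 1) = Pr p m (blk_A z b₁) * p b₂ := by
  have e : 2 * m = k + (m + (m - k)) := by omega
  rw [e, blk_ex p hs k m (m - k) _
    (fun x y => (blk_A z b₁).indicator 1 x * (blk_B b₂).indicator 1 y) ?_]
  · have h1 : ∀ x : List (Fin n), Ex p (m - k) (fun y => (blk_A z b₁).indicator 1 x *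
        (blk_B b₂).indicator 1 y) = p b₂ * (blk_A z b₁).indicator 1 x := by
      intro x
      rw [Ex_const_mul, blk_first p hs b₂ (by omega)]
      ring
    simp only [h1]
    rw [Ex_const_mul]
    unfold Pr
    ring
  · intro u x y hu hx hy
    have hd1 : (u ++ (x ++ y)).drop k = x ++ y := by
      rw [← hu, List.drop_left]
    have hd2 : ((u ++ (x ++ y)).drop k).take m = x := by
      rw [hd1, ← hx, List.take_left]
    have hd3 : (u ++ (x ++ y)).drop (k + m) = y := by
      rw [← List.drop_drop, hd1, ← hx, List.drop_left]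
    by_cases h1 : x ∈ blk_A z b₁
    · by_cases h2 : y ∈ blk_B b₂
      · rw [Set.indicator_of_mem h1, Set.indicator_of_mem h2, Set.indicator_of_mem]
        · simp
        · exact ⟨by rw [hd2]; exact h1, by rw [hd3]; exact h2⟩
      · rw [Set.indicator_of_notMem h2, Set.indicator_of_notMem]
        · simp
        · rintro ⟨_, h3⟩
          rw [hd3] at h3
          exact h2 h3
    · rw [Set.indicator_of_notMem h1, Set.indicator_of_notMem]
      · simp
      · rintro ⟨h3, _⟩
        rw [hd2] at h3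
        exact h1 h3

private theorem blk_counts {n : ℕ} {z : Fin n → ℕ} {m : ℕ} {b₁ b₂ : Fin n} {k j : ℕ}
    {w : List (Fin n)} (h : w ∈ blk_H z m b₁ b₂ k) (h' : w ∈ blk_H z m b₁ b₂ (k + j)) (i : Fin n) :
    ((w.drop (k + m)).take j).count i = ((w.drop k).take j).count i := by
  have h1 : (w.drop k).take (j + m) = (w.drop k).take j ++ ((w.drop k).drop j).take m :=
    List.take_add
  have h2 : (w.drop k).take (m + j) = (w.drop k).take m ++ ((w.drop k).drop m).take j :=
    List.take_add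
  rw [List.drop_drop] at h1 h2
  rw [Nat.add_comm j m, h2] at h1
  have h3 := congrArg (List.count i) h1
  rw [List.count_append, List.count_append, h.1.2 i, h'.1.2 i] at h3
  omega

private theorem blk_two {n : ℕ} (p : Fin n → ℝ) (hp : ∀ i, 0 ≤ p i) (hs : ∑ i, p i = 1)
    (z : Fin n → ℕ) (m : ℕ) (b₁ b₂ : Fin n) {k j : ℕ} (_hj : 1 ≤ j) (hk : k + j < m) {D : ℝ}
    (hD : ∀ z' : Fin n → ℕ, Pr p j {w | ∀ i, w.count i = z' i} ≤ D) :
    Ex p (2 * m) (fun w => (blk_H z m b₁ b₂ k).indicator 1 w *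
      (blk_H z m b₁ b₂ (k + j)).indicator 1 w) ≤ Pr p m (blk_A z b₁) * D := by
  let f : List (Fin n) → ℝ := fun w => (blk_A z b₁).indicator 1 ((w.drop k).take m) *
    ({y : List (Fin n) | ∀ i, (y.take j).count i = ((w.drop k).take j).count i}).indicator 1
      (w.drop (k + m))
  have h1 : Ex p (2 * m) (fun w => (blk_H z m b₁ b₂ k).indicator 1 w *
      (blk_H z m b₁ b₂ (k + j)).indicator 1 w) ≤ Ex p (2 * m) f := by
    refine Ex_mono p hp _ _ _ fun w _ => ?_
    have hf0 : 0 ≤ f w := mul_nonneg (Set.indicator_nonneg (fun _ _ => zero_le_one) _)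
      (Set.indicator_nonneg (fun _ _ => zero_le_one) _)
    by_cases h : w ∈ blk_H z m b₁ b₂ k
    · by_cases h' : w ∈ blk_H z m b₁ b₂ (k + j)
      · rw [Set.indicator_of_mem h, Set.indicator_of_mem h']
        have h3 : f w = 1 := by
          change (blk_A z b₁).indicator 1 ((w.drop k).take m) * _ = 1
          rw [Set.indicator_of_mem h.1, Set.indicator_of_mem]
          · simp
          · exact fun i => blk_counts h h' i
        rw [h3]
        simp
      · rw [Set.indicator_of_notMem h']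
        simpa using hf0
    · rw [Set.indicator_of_notMem h]
      simpa using hf0
  refine h1.trans ?_
  have e : 2 * m = k + (m + (j + (m - k - j))) := by omega
  rw [e, blk_ex p hs k m (j + (m - k - j)) f
    (fun x y => (blk_A z b₁).indicator 1 x *
      ({y : List (Fin n) | ∀ i, (y.take j).count i = (x.take j).count i}).indicator 1 y) ?_]
  · have h2 : ∀ x : List (Fin n), Ex p (j + (m - k - j)) (fun y => (blk_A z b₁).indicator 1 x *
        ({y : List (Fin n) | ∀ i, (y.take j).count i = (x.take j).count i}).indicator 1 y) ≤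
        D * (blk_A z b₁).indicator 1 x := by
      intro x
      rw [Ex_const_mul, Ex_append]
      have h3 : Ex p j (fun u => Ex p (m - k - j) (fun v =>
          ({y : List (Fin n) | ∀ i, (y.take j).count i = (x.take j).count i}).indicator
            (1 : List (Fin n) → ℝ) (u ++ v))) =
          Pr p j {w | ∀ i, w.count i = (x.take j).count i} := by
        unfold Pr
        refine Ex_congr p j _ _ fun u hu => ?_
        rw [← Ex_const p hs (m - k - j)
          (({w : List (Fin n) | ∀ i, w.count i = (x.take j).count i}).indicator 1 u)]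
        refine Ex_congr p _ _ _ fun v _ => ?_
        have h4 : (u ++ v).take j = u := by rw [← hu, List.take_left]
        by_cases h5 : ∀ i, u.count i = (x.take j).count i
        · rw [Set.indicator_of_mem (show u ∈ {w : List (Fin n) | ∀ i,
            w.count i = (x.take j).count i} from h5), Set.indicator_of_mem]
          · rfl
          · intro i
            rw [h4]
            exact h5 i
        · rw [Set.indicator_of_notMem (show u ∉ {w : List (Fin n) | ∀ i,
            w.count i = (x.take j).count i} from h5), Set.indicator_of_notMem]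
          intro h6
          apply h5
          intro i
          have h7 := h6 i
          rwa [h4] at h7
      rw [h3, mul_comm]
      exact mul_le_mul_of_nonneg_right (hD _) (Set.indicator_nonneg (fun _ _ => zero_le_one) _)
    have h3 := Ex_mono p hp m _ _ fun x _ => h2 x
    rw [Ex_const_mul] at h3
    refine h3.trans ?_
    unfold Pr
    rw [mul_comm]
  · intro u x y hu hx hy
    have hd1 : (u ++ (x ++ y)).drop k = x ++ y := by
      rw [← hu, List.drop_left]
    have hd2 : ((u ++ (x ++ y)).drop k).take m = x := by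
      rw [hd1, ← hx, List.take_left]
    have hd3 : (u ++ (x ++ y)).drop (k + m) = y := by
      rw [← List.drop_drop, hd1, ← hx, List.drop_left]
    have hd4 : ((u ++ (x ++ y)).drop k).take j = x.take j := by
      rw [hd1, List.take_append_of_le_length (by omega)]
    change (blk_A z b₁).indicator 1 (((u ++ (x ++ y)).drop k).take m) *
      ({y' : List (Fin n) | ∀ i, (y'.take j).count i =
        (((u ++ (x ++ y)).drop k).take j).count i}).indicator 1 ((u ++ (x ++ y)).drop (k + m)) = _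
    rw [hd2, hd3, hd4]

private theorem blk_sqrt_sum (K : ℕ) :
    ∑ j ∈ Finset.range K, 1 / Real.sqrt ((j + 1 : ℕ) : ℝ) ≤ 2 * Real.sqrt K := by
  induction K with
  | zero => simp
  | succ K ih =>
    rw [Finset.sum_range_succ]
    have h1 : 0 < Real.sqrt ((K + 1 : ℕ) : ℝ) := Real.sqrt_pos.2 (by positivity)
    have h2 : 0 ≤ Real.sqrt (K : ℝ) := Real.sqrt_nonneg _
    have h3 : Real.sqrt ((K + 1 : ℕ) : ℝ) ^ 2 = K + 1 := by
      rw [Real.sq_sqrt (by positivity)]
      push_cast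
      ring
    have h4 : Real.sqrt (K : ℝ) ^ 2 = K := Real.sq_sqrt (Nat.cast_nonneg K)
    have h5 : 1 / Real.sqrt ((K + 1 : ℕ) : ℝ) ≤
        2 * Real.sqrt ((K + 1 : ℕ) : ℝ) - 2 * Real.sqrt K := by
      rw [div_le_iff₀ h1]
      nlinarith [sq_nonneg (Real.sqrt ((K + 1 : ℕ) : ℝ) - Real.sqrt K)]
    linarith

private theorem blk_second {n : ℕ} (p : Fin n → ℝ) (hp : ∀ i, 0 ≤ p i) (hs : ∑ i, p i = 1)
    (z : Fin n → ℕ) (m : ℕ) (b₁ b₂ : Fin n) {C₂ : ℝ} (hC₂ : 0 ≤ C₂)
    (hD : ∀ j : ℕ, 1 ≤ j → ∀ z' : Fin n → ℕ, Pr p j {w | ∀ i, w.count i = z' i} ≤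
      C₂ / Real.sqrt j) (K : ℕ) (hK : K ≤ m) :
    Ex p (2 * m) (fun w => (∑ k ∈ Finset.range K, (blk_H z m b₁ b₂ k).indicator 1 w) ^ 2) ≤
      K * (Pr p m (blk_A z b₁) * p b₂ + Pr p m (blk_A z b₁) * (4 * C₂ * Real.sqrt m)) := by
  have hP0 : 0 ≤ Pr p m (blk_A z b₁) := Pr_nonneg p hp m _
  induction K with
  | zero =>
    simp only [Finset.range_zero, Finset.sum_empty, Nat.cast_zero, zero_mul]
    rw [show (fun _ : List (Fin n) => (0 : ℝ) ^ 2) = fun _ => 0 by funext _; ring, Ex_zero_fun]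
  | succ K ih =>
    have h1 := ih (by omega)
    have h2 : ∀ w : List (Fin n),
        (∑ k ∈ Finset.range (K + 1), (blk_H z m b₁ b₂ k).indicator (1 : List (Fin n) → ℝ) w) ^ 2 =
        ((∑ k ∈ Finset.range K, (blk_H z m b₁ b₂ k).indicator (1 : List (Fin n) → ℝ) w) ^ 2 +
          (blk_H z m b₁ b₂ K).indicator 1 w) +
        2 * ∑ k ∈ Finset.range K, (blk_H z m b₁ b₂ k).indicator 1 w *
          (blk_H z m b₁ b₂ K).indicator 1 w := by
      intro w
      rw [Finset.sum_range_succ, ← Finset.sum_mul]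
      have h3 := blk_ind_sq (blk_H z m b₁ b₂ K) w
      linear_combination h3
    simp only [h2]
    rw [Ex_add, Ex_add, Ex_const_mul, Ex_sum, blk_one p hs z m b₁ b₂ (by omega)]
    have h3 : ∑ k ∈ Finset.range K, Ex p (2 * m) (fun w => (blk_H z m b₁ b₂ k).indicator 1 w *
        (blk_H z m b₁ b₂ K).indicator 1 w) ≤
        Pr p m (blk_A z b₁) * (2 * C₂ * Real.sqrt m) := by
      have h4 : ∀ k ∈ Finset.range K, Ex p (2 * m) (fun w => (blk_H z m b₁ b₂ k).indicator 1 w *
        (blk_H z m b₁ b₂ K).indicator 1 w) ≤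
          Pr p m (blk_A z b₁) * (C₂ / Real.sqrt ((K - k : ℕ) : ℝ)) := by
        intro k hk
        have hk' := Finset.mem_range.1 hk
        have h5 := blk_two p hp hs z m b₁ b₂ (k := k) (j := K - k) (by omega) (by omega)
          (hD (K - k) (by omega))
        rw [show k + (K - k) = K by omega] at h5
        exact h5
      refine (Finset.sum_le_sum h4).trans ?_
      rw [← Finset.mul_sum]
      refine mul_le_mul_of_nonneg_left ?_ hP0
      have h5 : ∑ k ∈ Finset.range K, C₂ / Real.sqrt ((K - k : ℕ) : ℝ) =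
          C₂ * ∑ j ∈ Finset.range K, 1 / Real.sqrt ((j + 1 : ℕ) : ℝ) := by
        rw [← Finset.sum_range_reflect, Finset.mul_sum]
        refine Finset.sum_congr rfl fun j hj => ?_
        have hj' := Finset.mem_range.1 hj
        rw [show K - (K - 1 - j) = j + 1 by omega, mul_one_div]
      rw [h5]
      have h6 := blk_sqrt_sum K
      have h7 : Real.sqrt (K : ℝ) ≤ Real.sqrt m := Real.sqrt_le_sqrt (by exact_mod_cast (by omega))
      calc C₂ * ∑ j ∈ Finset.range K, 1 / Real.sqrt ((j + 1 : ℕ) : ℝ) ≤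
          C₂ * (2 * Real.sqrt m) := mul_le_mul_of_nonneg_left (by linarith) hC₂
        _ = 2 * C₂ * Real.sqrt m := by ring
    push_cast
    linarith

theorem block_hit (n : ℕ) (hn : 2 ≤ n) (c C : ℝ) (hc : 0 < c) (hC : 0 ≤ C) :
    ∃ κ : ℝ, 0 < κ ∧ ∀ p : Fin n → ℝ, PV c p → ∀ (z : Fin n → ℕ) (m : ℕ), ∑ i, z i = m → 1 ≤ m →
      (∀ i, |(z i : ℝ) - m * p i| ≤ C * Real.sqrt m) → ∀ b₁ b₂ : Fin n, 1 ≤ z b₁ →
      κ * (m : ℝ) ^ (-(((n : ℝ) - 2) / 2)) ≤ Pr p (2 * m) {w | Hit z b₁ b₂ w} := by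
  obtain ⟨κ₀, hκ₀, hlow⟩ := pmf_low n (by omega) c C hc hC
  obtain ⟨C₂, hC₂, hsup⟩ := pmf_sup n hn c hc
  obtain ⟨κ', hκ'⟩ : ∃ κ', κ' = min (c / 2) (c ^ 2 / (4 * C ^ 2 + 1)) := ⟨_, rfl⟩
  obtain ⟨D₀, hD₀⟩ : ∃ D₀, D₀ = 1 + 4 * C₂ / c := ⟨_, rfl⟩
  have hκ'0 : 0 < κ' := by
    rw [hκ']
    exact lt_min (by positivity) (by positivity)
  have hD₀0 : 0 < D₀ := by
    rw [hD₀]
    positivity
  refine ⟨κ' * c * κ₀ / D₀, by positivity, ?_⟩
  intro p hp z m hz hm hdev b₁ b₂ hb₁
  have hp0 : ∀ i, 0 ≤ p i := fun i => hc.le.trans (hp.low i)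
  have hmr : (1 : ℝ) ≤ m := by exact_mod_cast hm
  have hm0 : (0 : ℝ) < m := by linarith
  have hsm : 1 ≤ Real.sqrt m := Real.one_le_sqrt.2 hmr
  have hsm0 : 0 < Real.sqrt m := by linarith
  have hss : Real.sqrt m * Real.sqrt m = m := Real.mul_self_sqrt hm0.le
  -- many letters `b₁`
  have hzb : κ' * m ≤ z b₁ := by
    have hz1 : (1 : ℝ) ≤ z b₁ := by exact_mod_cast hb₁
    have h1 := (abs_le.1 (hdev b₁)).1
    have h2 := hp.low b₁
    rcases le_total (2 * C) (c * Real.sqrt m) with h3 | h3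
    · have h4 : κ' ≤ c / 2 := by
        rw [hκ']
        exact min_le_left _ _
      have h5 : C * Real.sqrt m ≤ c / 2 * m := by
        calc C * Real.sqrt m ≤ (c * Real.sqrt m / 2) * Real.sqrt m :=
              mul_le_mul_of_nonneg_right (by linarith) hsm0.le
          _ = c / 2 * (Real.sqrt m * Real.sqrt m) := by ring
          _ = c / 2 * m := by rw [hss]
      nlinarith
    · have h4 : κ' ≤ c ^ 2 / (4 * C ^ 2 + 1) := by
        rw [hκ']
        exact min_le_right _ _
      have h5 : c ^ 2 * m ≤ 4 * C ^ 2 := by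
        calc c ^ 2 * m = (c * Real.sqrt m) * (c * Real.sqrt m) := by
              rw [← hss]
              rw [hss]
              nlinarith
          _ ≤ (2 * C) * (2 * C) := mul_le_mul h3 h3 (by positivity) (by positivity)
          _ = 4 * C ^ 2 := by ring
      have h6 : κ' * m ≤ 1 := by
        calc κ' * m ≤ c ^ 2 / (4 * C ^ 2 + 1) * m := mul_le_mul_of_nonneg_right h4 hm0.le
          _ = c ^ 2 * m / (4 * C ^ 2 + 1) := by ring
          _ ≤ 1 := by
            rw [div_le_one (by positivity)]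
            linarith
      linarith
  -- the expected number of hits
  obtain ⟨P₁, hP₁⟩ : ∃ P₁, P₁ = Pr p m (blk_A z b₁) := ⟨_, rfl⟩
  have hP₁0 : 0 ≤ P₁ := by
    rw [hP₁]
    exact Pr_nonneg p hp0 m _
  have hhead : (m : ℝ) * P₁ = z b₁ * Pr p m {w | ∀ i, w.count i = z i} := by
    rw [hP₁]
    exact Pr_head p z m hz b₁
  obtain ⟨N, hN⟩ : ∃ N : List (Fin n) → ℝ, N = fun w => ∑ k ∈ Finset.range m,
    (blk_H z m b₁ b₂ k).indicator 1 w := ⟨_, rfl⟩
  have hEN : Ex p (2 * m) N = m * P₁ * p b₂ := by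
    have h1 : ∀ k ∈ Finset.range m,
        Ex p (2 * m) ((blk_H z m b₁ b₂ k).indicator 1) = P₁ * p b₂ := by
      intro k hk
      rw [hP₁]
      exact blk_one p hp.sum z m b₁ b₂ (Finset.mem_range.1 hk)
    rw [hN, Ex_sum]
    have h2 := Finset.sum_congr (rfl : Finset.range m = Finset.range m) h1
    rw [Finset.sum_const, Finset.card_range, nsmul_eq_mul] at h2
    rw [mul_assoc]
    exact h2
  have hEN2 : Ex p (2 * m) (fun w => N w ^ 2) ≤ (D₀ * Real.sqrt m) * (m * P₁ * p b₂) := by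
    have h1 := blk_second p hp0 hp.sum z m b₁ b₂ hC₂.le
      (fun j hj z' => hsup p hp j hj z') m le_rfl
    rw [← hP₁] at h1
    rw [hN]
    refine h1.trans ?_
    have h2 : 1 ≤ p b₂ / c := by
      rw [le_div_iff₀ hc]
      linarith [hp.low b₂]
    have h3 : 4 * C₂ * Real.sqrt m ≤ 4 * C₂ / c * Real.sqrt m * p b₂ := by
      have h4 : 4 * C₂ * Real.sqrt m * 1 ≤ 4 * C₂ * Real.sqrt m * (p b₂ / c) :=
        mul_le_mul_of_nonneg_left h2 (by positivity)
      calc 4 * C₂ * Real.sqrt m = 4 * C₂ * Real.sqrt m * 1 := by ring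
        _ ≤ _ := h4
        _ = _ := by ring
    have h5 : p b₂ ≤ Real.sqrt m * p b₂ := le_mul_of_one_le_left (hp0 b₂) hsm
    have h6 : P₁ * p b₂ + P₁ * (4 * C₂ * Real.sqrt m) ≤ P₁ * (D₀ * Real.sqrt m * p b₂) := by
      rw [← mul_add]
      refine mul_le_mul_of_nonneg_left ?_ hP₁0
      rw [hD₀]
      linarith
    calc (m : ℝ) * (P₁ * p b₂ + P₁ * (4 * C₂ * Real.sqrt m)) ≤
        m * (P₁ * (D₀ * Real.sqrt m * p b₂)) := mul_le_mul_of_nonneg_left h6 hm0.le
      _ = _ := by ring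
  -- Cauchy-Schwarz
  obtain ⟨D, hD⟩ : ∃ D, D = D₀ * Real.sqrt m := ⟨_, rfl⟩
  have hD0 : 0 < D := by
    rw [hD]
    positivity
  obtain ⟨Q, hQ⟩ : ∃ Q, Q = Pr p (2 * m) {w | Hit z b₁ b₂ w} := ⟨_, rfl⟩
  have hCS : Ex p (2 * m) N ≤ 1 / (2 * D) * Ex p (2 * m) (fun w => N w ^ 2) + D / 2 * Q := by
    rw [hQ]
    unfold Pr
    rw [← Ex_const_mul, ← Ex_const_mul, ← Ex_add]
    refine Ex_mono p hp0 _ _ _ fun w _ => ?_
    have hI0 : 0 ≤ ({w : List (Fin n) | Hit z b₁ b₂ w}).indicator (1 : List (Fin n) → ℝ) w :=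
      Set.indicator_nonneg (fun _ _ => zero_le_one) w
    by_cases h : ∃ k ∈ Finset.range m, w ∈ blk_H z m b₁ b₂ k
    · obtain ⟨k, _, hk⟩ := h
      rw [Set.indicator_of_mem (show w ∈ {w : List (Fin n) | Hit z b₁ b₂ w} from blk_H_hit hk)]
      have h2 : 1 / (2 * D) * N w ^ 2 + D / 2 * 1 - N w = (N w - D) ^ 2 / (2 * D) := by
        field_simp
        ring
      have h3 : 0 ≤ (N w - D) ^ 2 / (2 * D) := by positivity
      change N w ≤ 1 / (2 * D) * N w ^ 2 + D / 2 * 1
      linarith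
    · have h0 : N w = 0 := by
        rw [hN]
        refine Finset.sum_eq_zero fun k hk => ?_
        exact Set.indicator_of_notMem (fun hw => h ⟨k, hk, hw⟩) _
      rw [h0]
      have h2 : 0 ≤ D / 2 * ({w : List (Fin n) | Hit z b₁ b₂ w}).indicator
          (1 : List (Fin n) → ℝ) w := by positivity
      have h3 : 1 / (2 * D) * (0 : ℝ) ^ 2 = 0 := by ring
      rw [h3]
      linarith
  have hfin : m * P₁ * p b₂ ≤ D * Q := by
    rw [← hD] at hEN2
    have h1 : 1 / (2 * D) * Ex p (2 * m) (fun w => N w ^ 2) ≤ m * P₁ * p b₂ / 2 := by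
      calc 1 / (2 * D) * Ex p (2 * m) (fun w => N w ^ 2) ≤ 1 / (2 * D) * (D * (m * P₁ * p b₂)) :=
            mul_le_mul_of_nonneg_left hEN2 (by positivity)
        _ = m * P₁ * p b₂ / 2 := by field_simp
    rw [hEN] at hCS
    linarith
  -- conclusion
  have hlow' := hlow p hp z m hz hm hdev
  have h1 : κ' * m * (κ₀ * (m : ℝ) ^ (-(((n : ℝ) - 1) / 2))) * c ≤ D * Q := by
    refine le_trans ?_ hfin
    rw [hhead]
    have h2 : 0 ≤ κ₀ * (m : ℝ) ^ (-(((n : ℝ) - 1) / 2)) := by positivity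
    have h3 : (0 : ℝ) ≤ z b₁ := Nat.cast_nonneg _
    have h4 := mul_le_mul hzb hlow' h2 h3
    exact mul_le_mul h4 (hp.low b₂) hc.le (le_trans (by positivity) h4)
  have h2 : (m : ℝ) * (m : ℝ) ^ (-(((n : ℝ) - 1) / 2)) =
      Real.sqrt m * (m : ℝ) ^ (-(((n : ℝ) - 2) / 2)) := by
    rw [Real.sqrt_eq_rpow, ← Real.rpow_add hm0]
    nth_rewrite 1 [← Real.rpow_one (m : ℝ)]
    rw [← Real.rpow_add hm0]
    congr 1
    ring
  have h3 : κ' * c * κ₀ / D₀ * (m : ℝ) ^ (-(((n : ℝ) - 2) / 2)) * D =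
      κ' * m * (κ₀ * (m : ℝ) ^ (-(((n : ℝ) - 1) / 2))) * c := by
    rw [hD]
    have h4 : κ' * m * (κ₀ * (m : ℝ) ^ (-(((n : ℝ) - 1) / 2))) * c =
        κ' * κ₀ * c * ((m : ℝ) * (m : ℝ) ^ (-(((n : ℝ) - 1) / 2))) := by ring
    rw [h4, h2]
    field_simp
  rw [← h3] at h1
  rw [← hQ]
  have h5 : D * (κ' * c * κ₀ / D₀ * (m : ℝ) ^ (-(((n : ℝ) - 2) / 2))) ≤ D * Q := by
    linarith
  exact le_of_mul_le_mul_left h5 hD0

end H34.PS
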