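import Pool.Agent.H34.PS.Base

/-! Words with prescribed letter counts. -/

/- Sketch: `Pr_eq_ncard`: by induction on the length prove
`Ex p L f = ∑ over words w of length L (e.g. List.Vector or List.ofFn) of (w.map p).prod * f w`;
every word with letter counts `z` has length `∑ z i` and `(w.map p).prod = ∏ p i ^ z i`.
`ncard_count`: number of words with given letter counts is the multinomial coefficient (induction on
`∑ z i` on the first letter, or via `Multiset`/`Finset.sum_pow` comparison; any proof). -/

namespace H34.PS

variable {n : ℕ}

private def Multi_words (n : ℕ) : ℕ → Finset (List (Fin n))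
  | 0 => {[]}
  | L + 1 => Finset.univ.biUnion fun a : Fin n => (Multi_words n L).image (List.cons a)

private theorem Multi_mem (L : ℕ) (w : List (Fin n)) : w ∈ Multi_words n L ↔ w.length = L := by
  induction L generalizing w with
  | zero => simp [Multi_words]
  | succ L ih =>
    simp only [Multi_words, Finset.mem_biUnion, Finset.mem_univ, true_and, Finset.mem_image]
    constructor
    · rintro ⟨a, v, hv, rfl⟩
      rw [List.length_cons, (ih v).1 hv]
    · intro h
      cases w with
      | nil => simp at h
      | cons a v => exact ⟨a, v, (ih v).2 (by simpa using h), rfl⟩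

private theorem Multi_sum {M : Type*} [AddCommMonoid M] (L : ℕ) (g : List (Fin n) → M) :
    ∑ w ∈ Multi_words n (L + 1), g w = ∑ a, ∑ w ∈ Multi_words n L, g (a :: w) := by
  have e : Multi_words n (L + 1) =
      Finset.univ.biUnion fun a : Fin n => (Multi_words n L).image (List.cons a) := rfl
  rw [e, Finset.sum_biUnion]
  · refine Finset.sum_congr rfl fun a _ => ?_
    rw [Finset.sum_image]
    intro x _ y _ hxy
    exact List.cons_injective hxy
  · intro a _ b _ hab
    rw [Function.onFun, Finset.disjoint_left]
    intro w hw hw'
    obtain ⟨x, _, rfl⟩ := Finset.mem_image.1 hw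
    obtain ⟨y, _, hy⟩ := Finset.mem_image.1 hw'
    exact hab (List.cons_eq_cons.1 hy).1.symm

private theorem Multi_Ex (p : Fin n → ℝ) (L : ℕ) (f : List (Fin n) → ℝ) :
    Ex p L f = ∑ w ∈ Multi_words n L, (w.map p).prod * f w := by
  induction L generalizing f with
  | zero => simp [Multi_words]
  | succ L ih =>
    rw [Ex_succ, Multi_sum]
    refine Finset.sum_congr rfl fun a _ => ?_
    rw [ih, Finset.mul_sum]
    refine Finset.sum_congr rfl fun w _ => ?_
    rw [List.map_cons, List.prod_cons]
    ring

private theorem Multi_prod (p : Fin n → ℝ) (w : List (Fin n)) :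
    (w.map p).prod = ∏ i, p i ^ w.count i := by
  induction w with
  | nil => simp
  | cons a w ih =>
    rw [List.map_cons, List.prod_cons, ih]
    have h : ∀ i, p i ^ (a :: w).count i = (if i = a then p i else 1) * p i ^ w.count i := by
      intro i
      rw [List.count_cons]
      by_cases h : i = a
      · subst h
        simp [pow_succ]
        ring
      · have h' : ¬ (a = i) := fun e => h e.symm
        simp [h, h']
    rw [Finset.prod_congr rfl fun i _ => h i, Finset.prod_mul_distrib, Finset.prod_ite_eq']
    simp

private theorem Multi_len (w : List (Fin n)) : w.length = ∑ i, w.count i := by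
  induction w with
  | nil => simp
  | cons a w ih =>
    rw [List.length_cons, ih]
    have h : ∀ i, (a :: w).count i = w.count i + (if i = a then 1 else 0) := by
      intro i
      rw [List.count_cons]
      by_cases h : i = a
      · subst h; simp
      · have h' : ¬ (a = i) := fun e => h e.symm
        simp [h, h']
    rw [Finset.sum_congr rfl fun i _ => h i, Finset.sum_add_distrib, Finset.sum_ite_eq']
    simp

/-- All words with the letter counts `z` have the same weight. -/
theorem Pr_eq_ncard (p : Fin n → ℝ) (z : Fin n → ℕ) (S : Set (List (Fin n)))
    (hS : S ⊆ {w | ∀ i, w.count i = z i}) :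
    Pr p (∑ i, z i) S = (S.ncard : ℝ) * ∏ i, p i ^ z i := by
  classical
  unfold Pr
  rw [Multi_Ex]
  have h1 : ∀ w ∈ Multi_words n (∑ i, z i), (w.map p).prod * S.indicator 1 w =
      if w ∈ S then ∏ i, p i ^ z i else 0 := by
    intro w _
    by_cases hw : w ∈ S
    · rw [if_pos hw, Set.indicator_of_mem hw, Pi.one_apply, mul_one, Multi_prod]
      refine Finset.prod_congr rfl fun i _ => ?_
      rw [hS hw i]
    · rw [if_neg hw, Set.indicator_of_notMem hw, mul_zero]
  rw [Finset.sum_congr rfl h1, ← Finset.sum_filter, Finset.sum_const, nsmul_eq_mul]
  congr 2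
  have h2 : S = ((Multi_words n (∑ i, z i)).filter (fun w => w ∈ S) : Finset (List (Fin n))) := by
    ext w
    simp only [Finset.coe_filter, Set.mem_ofPred_eq]
    constructor
    · intro hw
      refine ⟨(Multi_mem _ w).2 ?_, hw⟩
      rw [Multi_len]
      exact Finset.sum_congr rfl fun i _ => hS hw i
    · exact fun h => h.2
  conv_rhs => rw [h2]
  rw [Set.ncard_coe_finset]

private theorem Multi_set (z : Fin n → ℕ) : {w : List (Fin n) | ∀ i, w.count i = z i} =
    ((Multi_words n (∑ i, z i)).filter (fun w => ∀ i, w.count i = z i) :
      Finset (List (Fin n))) := by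
  ext w
  simp only [Finset.coe_filter, Set.mem_ofPred_eq]
  constructor
  · intro hw
    refine ⟨(Multi_mem _ w).2 ?_, hw⟩
    rw [Multi_len]
    exact Finset.sum_congr rfl fun i _ => hw i
  · exact fun h => h.2

private theorem Multi_count (L : ℕ) : ∀ z : Fin n → ℕ, ∑ i, z i = L →
    (∏ i, (z i).factorial) *
      ((Multi_words n L).filter (fun w => ∀ i, w.count i = z i)).card = L.factorial := by
  classical
  induction L with
  | zero =>
    intro z hz
    have hz0 : ∀ i, z i = 0 := by
      intro i
      have := Finset.sum_eq_zero_iff.1 hz i (Finset.mem_univ i)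
      exact this
    have h1 : (Multi_words n 0).filter (fun w => ∀ i, w.count i = z i) = {[]} := by
      refine Finset.filter_true_of_mem fun w hw i => ?_
      have hw' : w = [] := Finset.mem_singleton.1 hw
      rw [hw', hz0 i, List.count_nil]
    rw [h1]
    simp [hz0]
  | succ L ih =>
    intro z hz
    rw [Finset.card_filter, Multi_sum, Finset.mul_sum]
    have key : ∀ a, (∏ i, (z i).factorial) *
        (∑ w ∈ Multi_words n L, if (∀ i, (a :: w).count i = z i) then 1 else 0) =
        z a * L.factorial := by
      intro a
      rcases Nat.eq_zero_or_pos (z a) with h0 | h0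
      · rw [h0, zero_mul]
        refine mul_eq_zero_of_right _ (Finset.sum_eq_zero fun w _ => ?_)
        rw [if_neg]
        intro h
        have := h a
        rw [h0, List.count_cons_self] at this
        omega
      · set z' : Fin n → ℕ := Function.update z a (z a - 1) with hz'
        have hsum : ∑ i, z' i = L := by
          have e1 : ∑ i, z i = z a + ∑ i ∈ Finset.univ.erase a, z i :=
            (Finset.add_sum_erase _ _ (Finset.mem_univ a)).symm
          have e2 : ∑ i, z' i = z' a + ∑ i ∈ Finset.univ.erase a, z' i :=
            (Finset.add_sum_erase _ _ (Finset.mem_univ a)).symm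
          have e3 : ∑ i ∈ Finset.univ.erase a, z' i = ∑ i ∈ Finset.univ.erase a, z i := by
            refine Finset.sum_congr rfl fun i hi => ?_
            rw [hz', Function.update_of_ne (Finset.ne_of_mem_erase hi)]
          have e4 : z' a = z a - 1 := by rw [hz', Function.update_self]
          omega
        have hprod : ∏ i, (z i).factorial = z a * ∏ i, (z' i).factorial := by
          rw [← Finset.mul_prod_erase _ (fun i => (z i).factorial) (Finset.mem_univ a),
            ← Finset.mul_prod_erase _ (fun i => (z' i).factorial) (Finset.mem_univ a),
            ← mul_assoc]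
          congr 1
          · rw [hz', Function.update_self]
            exact (Nat.mul_factorial_pred (by omega)).symm
          · refine Finset.prod_congr rfl fun i hi => ?_
            rw [hz', Function.update_of_ne (Finset.ne_of_mem_erase hi)]
        have hcond : ∀ w : List (Fin n), (∀ i, (a :: w).count i = z i) ↔
            ∀ i, w.count i = z' i := by
          intro w
          refine forall_congr' fun i => ?_
          by_cases hi : i = a
          · subst hi
            rw [hz', Function.update_self, List.count_cons_self]
            omega
          · rw [hz', Function.update_of_ne hi, List.count_cons_of_ne (fun e => hi e.symm)]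
        have hcard : (∑ w ∈ Multi_words n L, if (∀ i, (a :: w).count i = z i) then 1 else 0) =
            ((Multi_words n L).filter (fun w => ∀ i, w.count i = z' i)).card := by
          rw [Finset.card_filter]
          refine Finset.sum_congr rfl fun w _ => ?_
          simp only [hcond w]
        rw [hcard, hprod, mul_assoc, ih z' hsum]
    rw [Finset.sum_congr rfl fun a _ => key a, ← Finset.sum_mul, hz, Nat.factorial_succ]

theorem ncard_count (z : Fin n → ℕ) :
    ({w : List (Fin n) | ∀ i, w.count i = z i}).ncard = Nat.multinomial Finset.univ z := by
  classical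
  rw [Multi_set, Set.ncard_coe_finset]
  have h1 := Multi_count (∑ i, z i) z rfl
  have h2 := Nat.multinomial_spec Finset.univ z
  rw [← h2] at h1
  exact Nat.eq_of_mul_eq_mul_left (Finset.prod_pos fun i _ => Nat.factorial_pos _) h1

theorem finite_count (z : Fin n → ℕ) : ({w : List (Fin n) | ∀ i, w.count i = z i}).Finite := by
  classical
  rw [Multi_set]
  exact Finset.finite_toSet _

end H34.PS
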