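import Pool.Agent.H34.PS.Stir
import Pool.Agent.H34.PS.Multi

/-! From independent letters to uniformly distributed words with prescribed letter counts. -/

/- Sketch: `Pr_eq_ncard` for both sets: the quotient of the ncards is `Pr p L (S ∩ ..)/Pr p L {..}`
with `p i = Nc i / L`, and `Pr p L {counts = Nc} = L!/∏ (Nc i)! * ∏ (Nc i / L)^(Nc i) ≥
∏ 1/(e sqrt (Nc i)) ≥ (3 L)^(-n)` by Stirling (`L! ≥ (L/e)^L`, `(Nc i)! ≤ e sqrt(Nc i) (Nc i/e)^..`). -/

namespace H34.PS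

variable {n : ℕ}

private theorem transfer_low (L : ℕ) : ((L : ℝ) / Real.exp 1) ^ L ≤ (L.factorial : ℝ) := by
  rcases Nat.eq_zero_or_pos L with rfl | hL
  · simp
  · have h1 := fact_lower L hL
    have h2 : (1 : ℝ) ≤ Real.sqrt L := by
      rw [Real.one_le_sqrt]
      exact_mod_cast hL
    have h3 : (0 : ℝ) ≤ ((L : ℝ) / Real.exp 1) ^ L := by positivity
    nlinarith

private theorem transfer_up (L N : ℕ) (hN : 1 ≤ N) (hNL : N ≤ L) :
    (N.factorial : ℝ) ≤ 3 * (L : ℝ) * (((N : ℝ) / L) ^ N * ((L : ℝ) / Real.exp 1) ^ N) := by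
  have h1 := fact_upper N hN
  have hL0 : (0 : ℝ) < L := by exact_mod_cast (by omega : 0 < L)
  have h2 : ((N : ℝ) / L) ^ N * ((L : ℝ) / Real.exp 1) ^ N = ((N : ℝ) / Real.exp 1) ^ N := by
    rw [← mul_pow]
    congr 1
    field_simp
  rw [h2]
  refine h1.trans (mul_le_mul_of_nonneg_right ?_ (by positivity))
  have h3 : Real.exp 1 ≤ 3 := by
    have := Real.exp_one_lt_d9
    linarith
  have h4 : Real.sqrt N ≤ L := by
    have h5 : Real.sqrt N ≤ N := by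
      rw [Real.sqrt_le_left (by positivity)]
      have : (1 : ℝ) ≤ N := by exact_mod_cast hN
      nlinarith
    have h6 : (N : ℝ) ≤ L := by exact_mod_cast hNL
    linarith
  exact mul_le_mul h3 h4 (Real.sqrt_nonneg _) (by norm_num)

private theorem transfer_key (Nc : Fin n → ℕ) (L : ℕ) (hL : ∑ i, Nc i = L)
    (hpos : ∀ i, 1 ≤ Nc i) :
    1 ≤ (3 * (L : ℝ)) ^ n * (∏ i, ((Nc i : ℝ) / L) ^ Nc i) *
      (Nat.multinomial Finset.univ Nc : ℝ) := by
  have h1 : ∏ i, ((Nc i).factorial : ℝ) ≤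
      ∏ i, (3 * (L : ℝ) * (((Nc i : ℝ) / L) ^ Nc i * ((L : ℝ) / Real.exp 1) ^ Nc i)) := by
    refine Finset.prod_le_prod (fun i _ => by positivity) fun i _ => ?_
    refine transfer_up L (Nc i) (hpos i) ?_
    rw [← hL]
    exact Finset.single_le_sum (f := Nc) (fun _ _ => Nat.zero_le _) (Finset.mem_univ i)
  have h1' : ∏ i, (3 * (L : ℝ) * (((Nc i : ℝ) / L) ^ Nc i * ((L : ℝ) / Real.exp 1) ^ Nc i)) =
      (3 * (L : ℝ)) ^ n * ((∏ i, ((Nc i : ℝ) / L) ^ Nc i) * ((L : ℝ) / Real.exp 1) ^ L) := by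
    rw [Finset.prod_mul_distrib (f := fun _ : Fin n => 3 * (L : ℝ)), Finset.prod_const,
      Finset.card_univ, Fintype.card_fin, Finset.prod_mul_distrib, Finset.prod_pow_eq_pow_sum, hL]
  rw [h1'] at h1
  have h2 := transfer_low L
  have h3 : (∏ i, ((Nc i).factorial : ℝ)) * (Nat.multinomial Finset.univ Nc : ℝ) =
      (L.factorial : ℝ) := by
    have := Nat.multinomial_spec Finset.univ Nc
    rw [hL] at this
    exact_mod_cast this
  have hP : 0 < ∏ i, ((Nc i).factorial : ℝ) :=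
    Finset.prod_pos fun i _ => by exact_mod_cast Nat.factorial_pos _
  have hW : (0 : ℝ) ≤ (3 * (L : ℝ)) ^ n * ∏ i, ((Nc i : ℝ) / L) ^ Nc i := by positivity
  have h4 : ∏ i, ((Nc i).factorial : ℝ) ≤
      ((3 * (L : ℝ)) ^ n * ∏ i, ((Nc i : ℝ) / L) ^ Nc i) * (L.factorial : ℝ) := by
    refine h1.trans ?_
    rw [← mul_assoc]
    exact mul_le_mul_of_nonneg_left h2 hW
  rw [← h3] at h4
  have h5 : (∏ i, ((Nc i).factorial : ℝ)) * 1 ≤ (∏ i, ((Nc i).factorial : ℝ)) *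
      ((3 * (L : ℝ)) ^ n * (∏ i, ((Nc i : ℝ) / L) ^ Nc i) *
        (Nat.multinomial Finset.univ Nc : ℝ)) := by
    rw [mul_one]
    refine h4.trans (le_of_eq ?_)
    ring
  exact le_of_mul_le_mul_left h5 hP

theorem transfer (Nc : Fin n → ℕ) (L : ℕ) (hL : ∑ i, Nc i = L) (hpos : ∀ i, 1 ≤ Nc i)
    (S : Set (List (Fin n))) :
    (({w : List (Fin n) | (∀ i, w.count i = Nc i) ∧ w ∈ S}).ncard : ℝ) ≤
      (3 * (L : ℝ)) ^ n *
        Pr (fun i => (Nc i : ℝ) / L) L {w | (∀ i, w.count i = Nc i) ∧ w ∈ S} *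
        (({w : List (Fin n) | ∀ i, w.count i = Nc i}).ncard : ℝ) := by
  have h1 := Pr_eq_ncard (fun i => (Nc i : ℝ) / L) Nc
    {w : List (Fin n) | (∀ i, w.count i = Nc i) ∧ w ∈ S} (fun w hw => hw.1)
  rw [hL] at h1
  rw [h1, ncard_count]
  have h2 := transfer_key Nc L hL hpos
  have h3 : (0 : ℝ) ≤ (({w : List (Fin n) | (∀ i, w.count i = Nc i) ∧ w ∈ S}).ncard : ℝ) := by
    positivity
  calc (({w : List (Fin n) | (∀ i, w.count i = Nc i) ∧ w ∈ S}).ncard : ℝ)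
      = (({w : List (Fin n) | (∀ i, w.count i = Nc i) ∧ w ∈ S}).ncard : ℝ) * 1 := by ring
    _ ≤ (({w : List (Fin n) | (∀ i, w.count i = Nc i) ∧ w ∈ S}).ncard : ℝ) *
        ((3 * (L : ℝ)) ^ n * (∏ i, ((Nc i : ℝ) / L) ^ Nc i) *
          (Nat.multinomial Finset.univ Nc : ℝ)) := mul_le_mul_of_nonneg_left h2 h3
    _ = _ := by ring

end H34.PS
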