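import Pool.Agent.H34.PS.NCFix
import Pool.Agent.H34.PS.NCSame
import Pool.Agent.H34.PS.Transfer
import Pool.Agent.H34.PS.Fub
import Pool.Agent.H34.PS.PCol
import Pool.Agent.H34.PS.BoxCount

/-! The proportion of substitutions without property (Q). -/

/- Sketch: union bound over `i, j` and `t ∈ F` (`box_Q`); for fixed `(i, j, t)` with
`φ = Lam phys t`: `i ≠ j`: `fub` with index `i` (the word `σ j` stays fixed, `wl (σ j) = Lam ℓ j`
by `NData.left` and `phys_ab`), `transfer`, `nc_fix`; `i = j`: `nc_same` (`2 V ≤ φ`).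
`V |p k - r k / ∑ r| ≤ c₂ Cc` by `pcol`. -/

namespace H34.PS

private theorem ncard_bU {α ι : Type*} [DecidableEq ι] (s : Finset ι) (B : ι → Set α) :
    (⋃ x ∈ s, B x).ncard ≤ ∑ x ∈ s, (B x).ncard := by
  induction s using Finset.induction_on with
  | empty => simp
  | insert a s ha ih =>
    rw [Finset.sum_insert ha, Finset.set_biUnion_insert]
    exact (Set.ncard_union_le _ _).trans (Nat.add_le_add_left ih _)

private theorem wl_counts {n : ℕ} (ℓ : Fin n → ℝ) (Lam : ℝ) (N : Matrix (Fin n) (Fin n) ℕ)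
    (hleft : ∀ j, ∑ i, ℓ i * (N i j : ℝ) = Lam * ℓ j) (w : List (Fin n)) (i : Fin n)
    (hw : ∀ a, w.count a = N a i) : wl ℓ w = Lam * ℓ i := by
  rw [← phys_ab, ← hleft i]
  unfold phys ab
  apply Finset.sum_congr rfl
  intro a _
  rw [hw a]
  norm_num

theorem count_Q (n : ℕ) (hn : 2 ≤ n) (ℓ r : Fin n → ℝ) (hLR : LR ℓ r) (CT CD x₀ : ℝ)
    (hDio : DioProp ℓ r CT CD x₀) (C₁ CB c₀ : ℝ) (hCB : 0 < CB) (hc₀ : 0 < c₀)
    (hcℓ : ∀ i, c₀ ≤ ℓ i) :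
    ∃ (κ c₂ x₁ Lam₀ : ℝ) (K : ℕ), 0 < κ ∧ 0 < c₂ ∧ 1 ≤ x₁ ∧ 1 ≤ Lam₀ ∧
      ∀ (Lam V ε : ℝ) (N : Matrix (Fin n) (Fin n) ℕ), Lam₀ ≤ Lam → x₁ ≤ V → V ≤ c₂ * Lam →
      0 < ε → ε ≤ 1 → CD ≤ ε * V ^ (((n : ℝ) - 1) / 2) → NData ℓ r C₁ Lam N →
      (({σ | σ ∈ substs N ∧ ¬ PropQ ℓ r σ Lam (CB * Lam) (2 * V) ε c₀}).ncard : ℝ) ≤
        Lam ^ K * Real.exp (-(κ * (Lam * V ^ (-(((n : ℝ) + 1) / 2))))) *
          ((substs N).ncard : ℝ) := by
  classical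
  obtain ⟨c, Cc, K₁, Lc, hc, hCc, hK₁, hLc, hcol⟩ := pcol ℓ r (by omega) hLR C₁
  obtain ⟨κ1, c₂1, x₁1, hκ1, hc₂1, hx₁1, hfix⟩ :=
    nc_fix n hn ℓ r hLR CT CD x₀ hDio c Cc c₀ hc hc₀ hcℓ
  obtain ⟨κ2, c₂2, x₁2, hκ2, hc₂2, hx₁2, hsame⟩ :=
    nc_same n hn ℓ r hLR CT CD x₀ hDio c Cc c₀ hc hc₀
  obtain ⟨Kb, hKb, hbox⟩ := box_Q ℓ r hLR CB
  refine ⟨min κ1 κ2, min 1 (min c₂1 c₂2), max x₁1 x₁2,
    max Lc ((n : ℝ) ^ 2 * Kb ^ n * (3 * K₁) ^ n), 2 * n + 1, lt_min hκ1 hκ2,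
    lt_min one_pos (lt_min hc₂1 hc₂2), hx₁1.trans (le_max_left _ _),
    hLc.trans (le_max_left _ _), ?_⟩
  intro Lam V ε N hLam hV hVL hε0 hε1 hCD hN
  have hL1 : 1 ≤ Lam := hLc.trans ((le_max_left _ _).trans hLam)
  have hLpos : 0 < Lam := by linarith
  have hLc' : Lc ≤ Lam := (le_max_left _ _).trans hLam
  have hLK : (n : ℝ) ^ 2 * Kb ^ n * (3 * K₁) ^ n ≤ Lam := (le_max_right _ _).trans hLam
  have hV1 : V ≤ Lam := by
    refine hVL.trans ?_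
    have := min_le_left (1 : ℝ) (min c₂1 c₂2)
    nlinarith
  have hV2 : V ≤ c₂1 * Lam := by
    refine hVL.trans (mul_le_mul_of_nonneg_right ?_ hLpos.le)
    exact (min_le_right _ _).trans (min_le_left _ _)
  have hV3 : V ≤ c₂2 * Lam := by
    refine hVL.trans (mul_le_mul_of_nonneg_right ?_ hLpos.le)
    exact (min_le_right _ _).trans (min_le_right _ _)
  have hVpos : 0 < V := by
    have := hx₁1.trans ((le_max_left _ _).trans hV)
    linarith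
  obtain ⟨F, hF, hFmem⟩ := hbox Lam hL1
  set Ω : Fin n → Set (List (Fin n)) := fun j => {w | ∀ i, w.count i = N i j} with hΩ
  have hΩfin : ∀ j, (Ω j).Finite := fun j => finite_count (fun i => N i j)
  have hsub : substs N = {σ : Fin n → List (Fin n) | ∀ j, σ j ∈ Ω j} := by
    ext σ
    exact forall_comm
  have hfin : (substs N).Finite := by
    rw [hsub]
    exact Set.Finite.pi' hΩfin
  have hW0 : 0 < Lam * V ^ (-(((n : ℝ) + 1) / 2)) :=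
    mul_pos hLpos (Real.rpow_pos_of_pos hVpos _)
  set E : ℝ := Real.exp (-(min κ1 κ2 * (Lam * V ^ (-(((n : ℝ) + 1) / 2))))) with hE
  have hE0 : 0 ≤ E := (Real.exp_pos _).le
  have hE1 : Real.exp (-(κ1 * (Lam * V ^ (-(((n : ℝ) + 1) / 2))))) ≤ E := by
    apply Real.exp_le_exp.mpr
    have := mul_le_mul_of_nonneg_right (min_le_left κ1 κ2) hW0.le
    linarith
  have hE2 : Real.exp (-(κ2 * (Lam * V ^ (-(((n : ℝ) + 1) / 2))))) ≤ E := by
    apply Real.exp_le_exp.mpr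
    have := mul_le_mul_of_nonneg_right (min_le_right κ1 κ2) hW0.le
    linarith
  have hcn : (0 : ℝ) ≤ ((substs N).ncard : ℝ) := Nat.cast_nonneg _
  have key : ∀ (i j : Fin n) (t : Fin n → ℤ), 0 ≤ phys ℓ t → phys ℓ t + c₀ ≤ ℓ i →
      (i = j → 2 * V ≤ Lam * phys ℓ t) →
      (({σ | σ ∈ substs N ∧ ¬ NC ℓ (σ i) (σ j) (Lam * phys ℓ t) ε}).ncard : ℝ) ≤
        ((3 * (K₁ * Lam)) ^ n * E) * ((substs N).ncard : ℝ) := by
    intro i j t ht0 ht1 ht2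
    obtain ⟨hp1, hp2, hp3, hp4, hp5⟩ := hcol Lam N hLc' hN i
    have hφ0 : 0 ≤ Lam * phys ℓ t := mul_nonneg hLpos.le ht0
    have hφ1 : Lam * phys ℓ t + c₀ * Lam ≤ Lam * ℓ i := by nlinarith
    have hVp : ∀ k, V * |(N k i : ℝ) / ((∑ k, N k i : ℕ) : ℝ) - r k / ∑ k, r k| ≤ Cc := by
      intro k
      exact (mul_le_mul_of_nonneg_right hV1 (abs_nonneg _)).trans (hp3 k)
    have hf := fub Ω hΩfin i (fun σ => ¬ NC ℓ (σ i) (σ j) (Lam * phys ℓ t) ε)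
      ((3 * (K₁ * Lam)) ^ n * E) ?_
    · rw [hsub]
      exact hf
    intro σ hσ
    have htr : ∀ S : Set (List (Fin n)),
        Pr (fun k => (N k i : ℝ) / ((∑ k, N k i : ℕ) : ℝ)) (∑ k, N k i)
          {w | (∀ a, w.count a = N a i) ∧ w ∈ S} ≤ E →
        (({w : List (Fin n) | (∀ a, w.count a = N a i) ∧ w ∈ S}).ncard : ℝ) ≤
          (3 * (K₁ * Lam)) ^ n * E * ((Ω i).ncard : ℝ) := by
      intro S hS
      have h1 := transfer (fun a => N a i) (∑ k, N k i) rfl hp1 S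
      refine h1.trans (mul_le_mul_of_nonneg_right ?_ (Nat.cast_nonneg _))
      apply mul_le_mul _ hS (Pr_nonneg _ (fun a => by positivity) _ _) (by positivity)
      apply pow_le_pow_left₀ (by positivity)
      linarith
    by_cases hij : i = j
    · subst hij
      have hset : {X | X ∈ Ω i ∧ (fun σ : Fin n → List (Fin n) =>
          ¬ NC ℓ (σ i) (σ i) (Lam * phys ℓ t) ε) (Function.update σ i X)} =
          {w : List (Fin n) | (∀ a, w.count a = N a i) ∧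
            w ∈ {X | ¬ NC ℓ X X (Lam * phys ℓ t) ε}} := by
        ext X
        simp only [hΩ, Set.mem_ofPred_eq, Function.update_self]
      rw [hset]
      apply htr
      refine le_trans ?_ ((hsame V ε Lam ((le_max_right _ _).trans hV) hV3 hε0 hε1 hCD
        _ hp2 hVp (Lam * phys ℓ t) i (ht2 rfl) hφ1 (∑ k, N k i)).trans hE2)
      apply Pr_mono _ (fun a => by positivity)
      rintro w _ ⟨hw1, hw2⟩
      exact ⟨hw2, wl_counts ℓ Lam N hN.left w i hw1⟩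
    · have hset : {X | X ∈ Ω i ∧ (fun σ : Fin n → List (Fin n) =>
          ¬ NC ℓ (σ i) (σ j) (Lam * phys ℓ t) ε) (Function.update σ i X)} =
          {w : List (Fin n) | (∀ a, w.count a = N a i) ∧
            w ∈ {X | ¬ NC ℓ X (σ j) (Lam * phys ℓ t) ε}} := by
        ext X
        simp only [hΩ, Set.mem_ofPred_eq, Function.update_self,
          Function.update_of_ne (Ne.symm hij)]
      rw [hset]
      apply htr
      refine le_trans ?_ ((hfix V ε Lam ((le_max_left _ _).trans hV) hV2 hε0 hε1 hCD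
        _ hp2 hVp (σ j) (Lam * phys ℓ t) i j (wl_counts ℓ Lam N hN.left (σ j) j (hσ j)) hφ0 hφ1
        (∑ k, N k i)).trans hE1)
      apply Pr_mono _ (fun a => by positivity)
      rintro w _ ⟨hw1, hw2⟩
      exact ⟨hw2, wl_counts ℓ Lam N hN.left w i hw1⟩
  set G : Finset (Fin n × Fin n × (Fin n → ℤ)) :=
    (Finset.univ ×ˢ (Finset.univ ×ˢ F)).filter (fun x =>
      0 ≤ phys ℓ x.2.2 ∧ phys ℓ x.2.2 + c₀ ≤ ℓ x.1 ∧
        (x.1 = x.2.1 → 2 * V ≤ Lam * phys ℓ x.2.2)) with hG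
  have hGcard : ((G.card : ℕ) : ℝ) ≤ (n : ℝ) ^ 2 * (Kb * Lam) ^ n := by
    have h1 : G.card ≤ n * (n * F.card) := by
      refine (Finset.card_filter_le _ _).trans ?_
      rw [Finset.card_product, Finset.card_product, Finset.card_univ, Fintype.card_fin]
    have h2 : ((G.card : ℕ) : ℝ) ≤ (n : ℝ) * ((n : ℝ) * (F.card : ℝ)) := by exact_mod_cast h1
    refine h2.trans ?_
    rw [← mul_assoc, ← sq]
    exact mul_le_mul_of_nonneg_left hF (by positivity)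
  have hcover : {σ | σ ∈ substs N ∧ ¬ PropQ ℓ r σ Lam (CB * Lam) (2 * V) ε c₀} ⊆
      ⋃ x ∈ G, {σ | σ ∈ substs N ∧ ¬ NC ℓ (σ x.1) (σ x.2.1) (Lam * phys ℓ x.2.2) ε} := by
    rintro σ ⟨hσ, hq⟩
    unfold PropQ at hq
    push Not at hq
    obtain ⟨i, j, t, hd, ht0, ht1, ht2, hnc⟩ := hq
    rw [Set.mem_iUnion₂]
    refine ⟨(i, j, t), ?_, hσ, hnc⟩
    rw [hG, Finset.mem_filter]
    refine ⟨?_, ht0, ht1, ht2⟩
    rw [Finset.mem_product, Finset.mem_product]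
    refine ⟨Finset.mem_univ _, Finset.mem_univ _, hFmem i t hd ht0 (by linarith)⟩
  have hfinU : (⋃ x ∈ G, {σ | σ ∈ substs N ∧
      ¬ NC ℓ (σ x.1) (σ x.2.1) (Lam * phys ℓ x.2.2) ε}).Finite := by
    apply hfin.subset
    intro σ hσ
    rw [Set.mem_iUnion₂] at hσ
    obtain ⟨_, _, h, _⟩ := hσ
    exact h
  have hb1 := (Set.ncard_le_ncard hcover hfinU).trans (ncard_bU G _)
  have hb2 : (({σ | σ ∈ substs N ∧ ¬ PropQ ℓ r σ Lam (CB * Lam) (2 * V) ε c₀}).ncard : ℝ) ≤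
      ∑ x ∈ G, ((3 * (K₁ * Lam)) ^ n * E) * ((substs N).ncard : ℝ) := by
    have hb3 : (({σ | σ ∈ substs N ∧ ¬ PropQ ℓ r σ Lam (CB * Lam) (2 * V) ε c₀}).ncard : ℝ) ≤
        ∑ x ∈ G, (({σ | σ ∈ substs N ∧
          ¬ NC ℓ (σ x.1) (σ x.2.1) (Lam * phys ℓ x.2.2) ε}).ncard : ℝ) := by
      exact_mod_cast hb1
    refine hb3.trans (Finset.sum_le_sum ?_)
    intro x hx
    rw [hG, Finset.mem_filter] at hx
    exact key x.1 x.2.1 x.2.2 hx.2.1 hx.2.2.1 hx.2.2.2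
  rw [Finset.sum_const, nsmul_eq_mul] at hb2
  refine hb2.trans ?_
  rw [← mul_assoc]
  refine mul_le_mul_of_nonneg_right ?_ hcn
  rw [← mul_assoc]
  refine mul_le_mul_of_nonneg_right ?_ hE0
  calc ((G.card : ℕ) : ℝ) * (3 * (K₁ * Lam)) ^ n
      ≤ ((n : ℝ) ^ 2 * (Kb * Lam) ^ n) * (3 * (K₁ * Lam)) ^ n :=
        mul_le_mul_of_nonneg_right hGcard (by positivity)
    _ = ((n : ℝ) ^ 2 * Kb ^ n * (3 * K₁) ^ n) * Lam ^ (2 * n) := by
        rw [mul_pow, ← mul_assoc 3 K₁ Lam, mul_pow (3 * K₁) Lam, two_mul, pow_add]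
        ring
    _ ≤ Lam * Lam ^ (2 * n) := mul_le_mul_of_nonneg_right hLK (by positivity)
    _ = Lam ^ (2 * n + 1) := by rw [pow_succ]; ring

end H34.PS
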