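import Pool.Agent.H34.PS.Base

/-! Positive integer vectors close to the ray of `r` with prescribed physical length. -/

/- Sketch: `z⁰ i = ⌊x r i⌋`, `D = x - phys z⁰ ∈ [0, ∑ ℓ i]`. Apply `hinh` (with `C₀ = ∑ ℓ i + 2`) to
`φ = D - (5/4) ε` and `T = sqrt x` (so `T^(n-1) = x^((n-1)/2)`): get `δ`, `|δ i| ≤ C sqrt x`,
`0 ≤ φ - phys δ ≤ C / x^((n-1)/2) ≤ ε/2` if `CD ≥ 2 C`. `z = z⁰ + δ`, `x - phys z = D - phys δ ∈
[5/4 ε, 7/4 ε]`. To have `z i ≥ 1` for `x ≥ x₀` use instead `T = κ sqrt x` with `κ` small such that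
`C κ sqrt x ≤ r i x / 2`: automatic for `x ≥ x₀` large since `sqrt x ≤ x`. -/
/- (`|δ i| ≤ C sqrt x ≤ r i x - 2` for `x` large.) -/

namespace H34.PS

variable {n : ℕ}

private theorem dio_lb (f : Fin n → ℝ) (h : ∀ i, 0 < f i) : ∃ m, 0 < m ∧ ∀ i, m ≤ f i := by
  rcases isEmpty_or_nonempty (Fin n) with he | he
  · exact ⟨1, one_pos, fun i => he.elim i⟩
  · obtain ⟨i0, hi0⟩ := Finite.exists_min f
    exact ⟨f i0, h i0, hi0⟩

theorem dio (hn : 2 ≤ n) (ℓ r : Fin n → ℝ) (hLR : LR ℓ r)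
    (hinh : ∀ C₀ : ℝ, ∃ C : ℝ, 0 < C ∧ ∀ T : ℝ, 1 ≤ T → ∀ φ : ℝ, |φ| ≤ C₀ → ∃ δ : Fin n → ℤ,
      (∀ i, |(δ i : ℝ)| ≤ C * T) ∧ 0 ≤ φ - phys ℓ δ ∧ (φ - phys ℓ δ) * T ^ (n - 1) ≤ C) :
    ∃ CT CD x₀ : ℝ, 1 ≤ CT ∧ 0 < CD ∧ 1 ≤ x₀ ∧ DioProp ℓ r CT CD x₀ := by
  obtain ⟨C, hC, hinh⟩ := hinh (∑ i, ℓ i + 2)
  obtain ⟨rm, hrm, hrm'⟩ := dio_lb r hLR.hr
  have hℓ := hLR.hℓ
  have hLm : 0 ≤ ∑ i, ℓ i := Finset.sum_nonneg fun i _ => (hℓ i).le
  refine ⟨1 + C, 2 * C, 1 + ((C + 2) / rm) ^ 2, by linarith, by linarith,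
    by nlinarith [sq_nonneg ((C + 2) / rm)], ?_⟩
  intro x ε hx hε hε1 hCD
  have hx1 : 1 ≤ x := by nlinarith [sq_nonneg ((C + 2) / rm)]
  have hx0 : 0 < x := by linarith
  have hs1 : 1 ≤ Real.sqrt x := by rwa [Real.one_le_sqrt]
  have hs0 : 0 < Real.sqrt x := by linarith
  have hsx : Real.sqrt x * Real.sqrt x = x := Real.mul_self_sqrt hx0.le
  have hs2 : (C + 2) / rm ≤ Real.sqrt x := by
    apply Real.le_sqrt_of_sq_le
    linarith
  set z₀ : Fin n → ℤ := fun i => ⌊x * r i⌋ with hz₀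
  have hz1 : ∀ i, (z₀ i : ℝ) ≤ x * r i := fun i => Int.floor_le _
  have hz2 : ∀ i, x * r i ≤ (z₀ i : ℝ) + 1 := fun i => (Int.lt_floor_add_one _).le
  set D : ℝ := x - phys ℓ z₀ with hD
  have hDe : D = ∑ i, ℓ i * (x * r i - z₀ i) := by
    have : x = ∑ i, ℓ i * (x * r i) := by
      calc x = x * ∑ i, ℓ i * r i := by rw [hLR.hlr, mul_one]
        _ = ∑ i, ℓ i * (x * r i) := by
          rw [Finset.mul_sum]; exact Finset.sum_congr rfl fun i _ => by ring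
    rw [hD, phys]
    conv_lhs => rw [this]
    rw [← Finset.sum_sub_distrib]
    exact Finset.sum_congr rfl fun i _ => by ring
  have hD0 : 0 ≤ D := by
    rw [hDe]
    exact Finset.sum_nonneg fun i _ => mul_nonneg (hℓ i).le (by linarith [hz1 i])
  have hD1 : D ≤ ∑ i, ℓ i := by
    rw [hDe]
    refine Finset.sum_le_sum fun i _ => ?_
    have h1 : x * r i - z₀ i ≤ 1 := by linarith [hz2 i]
    calc ℓ i * (x * r i - z₀ i) ≤ ℓ i * 1 := mul_le_mul_of_nonneg_left h1 (hℓ i).le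
      _ = ℓ i := mul_one _
  obtain ⟨δ, hδ1, hδ2, hδ3⟩ := hinh (Real.sqrt x) hs1 (D - 5 / 4 * ε)
    (by rw [abs_le]; constructor <;> linarith)
  have hT : Real.sqrt x ^ (n - 1) = x ^ (((n : ℝ) - 1) / 2) := by
    rw [Real.sqrt_eq_rpow, ← Real.rpow_natCast, ← Real.rpow_mul hx0.le]
    congr 1
    rw [Nat.cast_sub (by omega)]
    push_cast
    ring
  rw [hT] at hδ3
  have hp : 0 < x ^ (((n : ℝ) - 1) / 2) := Real.rpow_pos_of_pos hx0 _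
  have hup : D - 5 / 4 * ε - phys ℓ δ ≤ ε / 2 := by
    by_contra hcon
    push Not at hcon
    have h1 : ε / 2 * x ^ (((n : ℝ) - 1) / 2) < (D - 5 / 4 * ε - phys ℓ δ) *
        x ^ (((n : ℝ) - 1) / 2) := mul_lt_mul_of_pos_right hcon hp
    linarith
  have hlow : ∀ i, 1 ≤ z₀ i + δ i := by
    intro i
    have h1 : x * rm ≤ x * r i := mul_le_mul_of_nonneg_left (hrm' i) hx0.le
    have h2 : C + 2 ≤ Real.sqrt x * rm := by rwa [div_le_iff₀ hrm] at hs2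
    have h3 : Real.sqrt x * (C + 2) ≤ Real.sqrt x * (Real.sqrt x * rm) :=
      mul_le_mul_of_nonneg_left h2 hs0.le
    have h4 : Real.sqrt x * (Real.sqrt x * rm) = x * rm := by rw [← mul_assoc, hsx]
    have h5 := (abs_le.1 (hδ1 i)).1
    have h6 : (1 : ℝ) ≤ ((z₀ i + δ i : ℤ) : ℝ) := by
      push_cast
      have := hz2 i
      nlinarith
    exact_mod_cast h6
  have hcast : ∀ i, (((z₀ i + δ i).toNat : ℕ) : ℤ) = z₀ i + δ i := fun i =>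
    Int.toNat_of_nonneg (by have := hlow i; omega)
  have hcastR : ∀ i, (((z₀ i + δ i).toNat : ℕ) : ℝ) = (z₀ i : ℝ) + δ i := fun i => by
    have := hcast i
    have h2 : ((((z₀ i + δ i).toNat : ℕ) : ℤ) : ℝ) = ((z₀ i + δ i : ℤ) : ℝ) := by rw [this]
    push_cast at h2
    exact h2
  have hphys : phys ℓ (fun i => (((z₀ i + δ i).toNat : ℕ) : ℤ)) = phys ℓ z₀ + phys ℓ δ := by
    rw [← phys_add]
    congr 1
    funext i
    exact hcast i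
  refine ⟨fun i => (z₀ i + δ i).toNat, fun i => ?_, ?_, ?_, fun i => ?_⟩
  · have h1 := hlow i
    show 1 ≤ (z₀ i + δ i).toNat
    omega
  · rw [hphys]; linarith
  · rw [hphys]; linarith
  · rw [hcastR]
    have e : (z₀ i : ℝ) + δ i - x * r i = ((z₀ i : ℝ) - x * r i) + δ i := by ring
    rw [e]
    have b1 : |(z₀ i : ℝ) - x * r i| ≤ 1 := by
      rw [abs_le]; constructor <;> linarith [hz1 i, hz2 i]
    calc _ ≤ |(z₀ i : ℝ) - x * r i| + |(δ i : ℝ)| := abs_add_le _ _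
      _ ≤ 1 + C * Real.sqrt x := add_le_add b1 (hδ1 i)
      _ ≤ (1 + C) * Real.sqrt x := by linarith

end H34.PS
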