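import Pool.Agent.H34.PS.Base

/-! From a pair of equal tiles with a small offset of size about `ε` to a coincidence, using
property (P). -/

/- Sketch: `θ = Lam * phys t = phys (act t) ∈ (Lam ε, 2 Lam ε)`, `s = act σ t`. (1) If
`|dev s i| ≤ CT sqrt θ` for all `i` then `z = s` is a vector of naturals `≥ 1` (`s i ≥ θ r i - CT sqrt θ`,
`θ ≥ x₁` large); `PropP` with `b₁ = b₂ = b` gives `σ b = u ++ (b :: v) ++ (b :: v')` with
`ab (b :: v) = s`, so `⟨b, b, s + ab u - ab (u ++ b :: v)⟩ = ⟨b, b, 0⟩` is a child. (2) Otherwise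
`DioProp` with `x = θ` gives `z`, `PropP` gives the child `⟨b, b, s - z⟩` with
`phys (s - z) = θ - phys z ∈ (ε, 2 ε)` and `|dev (s - z)| ≤ |dev t|/4 + CT sqrt θ` up to constants;
(`|dev z i| ≤ CT sqrt θ + 2 r i ≤ 2 CT sqrt (phys z)` for `θ ≥ x₁`). If `|dev t| ≤ y` then the new
deviation is at most `y/4 + 2 CT sqrt (2 Lam ε)`; case (1) holds as soon as `y/4 ≤ CT sqrt (Lam ε)`.
CAREFUL with the constant: with `y' = y/4 + (CT sqrt θ + 2 r i)`, `θ < 2 Lam ε`, the limit of `y` is
`(4/3)(sqrt 2 CT sqrt(Lam ε) + O(1))`, a quarter of it is `< 0.48 CT sqrt(Lam ε) + O(1)`: fine.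
Induct on the number of steps (`y` arbitrary at the start). -/

namespace H34.PS

/-- One step with a prescribed vector `z` of naturals. -/
private theorem child_of_hit {n : ℕ} (ℓ : Fin n → ℝ) (σ : Fin n → List (Fin n)) (b : Fin n)
    (t : Fin n → ℤ) (z : Fin n → ℕ) (hit : Hit z b b (σ b))
    (hov : IsOv ℓ ⟨b, b, act σ t - fun i => (z i : ℤ)⟩) :
    Child ℓ σ ⟨b, b, t⟩ ⟨b, b, act σ t - fun i => (z i : ℤ)⟩ := by
  obtain ⟨u, v, v', h1, h2⟩ := hit
  refine ⟨hov, u ++ (b :: v), v', u, v ++ (b :: v'), ?_, ?_, ?_⟩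
  · simpa using h1
  · simpa using h1
  · show act σ t - (fun i => (z i : ℤ)) = act σ t + ab u - ab (u ++ (b :: v))
    rw [ab_append]
    have : ab (b :: v) = fun i => (z i : ℤ) := by
      funext i
      simp only [ab]
      exact_mod_cast h2 i
    rw [this]
    abel

theorem game (n : ℕ) (hn : 2 ≤ n) (ℓ r : Fin n → ℝ) (hLR : LR ℓ r) (CT CD x₀ : ℝ) (hCT : 1 ≤ CT)
    (hDio : DioProp ℓ r CT CD x₀) :
    ∃ x₁ : ℝ, 1 ≤ x₁ ∧ ∀ (Lam : ℝ) (σ : Fin n → List (Fin n)), Sys ℓ r σ Lam → ∀ ε : ℝ, 0 < ε →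
      ε ≤ 1 → (∀ i, 2 * ε < ℓ i) → x₁ ≤ Lam * ε →
      CD ≤ ε * (Lam * ε) ^ (((n : ℝ) - 1) / 2) →
      PropP ℓ r σ (2 * CT) (2 * (Lam * ε)) →
      ∀ (b : Fin n) (t : Fin n → ℤ), ε < phys ℓ t → phys ℓ t < 2 * ε → Leads ℓ σ ⟨b, b, t⟩ := by
  classical
  -- constants
  obtain ⟨R, hR⟩ : ∃ R : ℝ, ∀ i, r i ≤ R := by
    refine ⟨∑ i, r i, fun i => ?_⟩
    exact Finset.single_le_sum (f := r) (fun j _ => (hLR.hr j).le) (Finset.mem_univ i)
  obtain ⟨ρ, hρ0, hρ⟩ : ∃ ρ : ℝ, 0 < ρ ∧ ∀ i, ρ ≤ r i := by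
    have : Nonempty (Fin n) := ⟨⟨0, by omega⟩⟩
    obtain ⟨i₀, hi₀⟩ := Finite.exists_min r
    exact ⟨r i₀, hLR.hr i₀, hi₀⟩
  have hR0 : 0 < R := lt_of_lt_of_le hρ0 (le_trans (hρ ⟨0, by omega⟩) (hR ⟨0, by omega⟩))
  -- x₁ large
  let x₁ : ℝ := max (max 16 x₀) (max ((16 * R + 16) ^ 2) (((2 * CT + 2) / ρ) ^ 2 ))
  have hx16 : 16 ≤ x₁ := le_trans (le_max_left _ _) (le_max_left _ _)
  have hx0 : x₀ ≤ x₁ := le_trans (le_max_right _ _) (le_max_left _ _)
  have hxR : (16 * R + 16) ^ 2 ≤ x₁ := le_trans (le_max_left _ _) (le_max_right _ _)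
  have hxC : ((2 * CT + 2) / ρ) ^ 2 ≤ x₁ := le_trans (le_max_right _ _) (le_max_right _ _)
  refine ⟨x₁, by linarith, ?_⟩
  intro Lam σ hS ε hε hε1 hεℓ hLe hCD hP b
  have hphysact : ∀ t, phys ℓ (act σ t) = Lam * phys ℓ t := fun t => phys_act ℓ σ Lam hS.len t
  have hLam : 0 < Lam := by
    by_contra h
    push Not at h
    have : Lam * ε ≤ 0 := mul_nonpos_of_nonpos_of_nonneg h hε.le
    linarith
  let a : ℝ := CT * Real.sqrt (Lam * ε)
  have hsq1 : 16 * R + 16 ≤ Real.sqrt (Lam * ε) := by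
    apply Real.le_sqrt_of_sq_le
    linarith
  have ha : 16 * R + 16 ≤ a := by
    have h1 : 0 ≤ Real.sqrt (Lam * ε) := Real.sqrt_nonneg _
    simp only [a]
    nlinarith
  have hbound : ∀ t, ε < phys ℓ t → phys ℓ t < 2 * ε →
      Lam * ε < Lam * phys ℓ t ∧ Lam * phys ℓ t < 2 * (Lam * ε) := by
    intro t h1 h2
    constructor
    · exact mul_lt_mul_of_pos_left h1 hLam
    · nlinarith
  have key : ∀ k : ℕ, ∀ t : Fin n → ℤ, ε < phys ℓ t → phys ℓ t < 2 * ε →
      (∀ i, |dev ℓ r t i| ≤ 4 * a * (4 / 3) ^ k) → Leads ℓ σ ⟨b, b, t⟩ := by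
    intro k
    induction k with
    | zero =>
      intro t ht1 ht2 hdev
      obtain ⟨hθ1, hθ2⟩ := hbound t ht1 ht2
      set θ := Lam * phys ℓ t with hθ
      have hθx : x₁ ≤ θ := by linarith
      have hdevs : ∀ i, |dev ℓ r (act σ t) i| ≤ CT * Real.sqrt θ := by
        intro i
        have h1 := hS.contr t _ hdev i
        have h2 : Real.sqrt (Lam * ε) ≤ Real.sqrt θ := Real.sqrt_le_sqrt hθ1.le
        have h3 : a ≤ CT * Real.sqrt θ := mul_le_mul_of_nonneg_left h2 (by linarith)
        calc |dev ℓ r (act σ t) i| ≤ 4 * a * (4 / 3) ^ 0 / 4 := h1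
          _ = a := by ring
          _ ≤ _ := h3
      have hphs : phys ℓ (act σ t) = θ := hphysact t
      have hsqθ : (2 * CT + 2) / ρ ≤ Real.sqrt θ := by
        apply Real.le_sqrt_of_sq_le
        linarith
      have hsqθ' : 2 * CT + 2 ≤ ρ * Real.sqrt θ := by
        rw [div_le_iff₀ hρ0] at hsqθ
        linarith
      have hsq2 : Real.sqrt θ * Real.sqrt θ = θ := Real.mul_self_sqrt (by linarith)
      have hsq4 : 4 ≤ Real.sqrt θ := by
        apply Real.le_sqrt_of_sq_le
        linarith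
      have hspos : ∀ i, 1 ≤ act σ t i := by
        intro i
        have h1 := hdevs i
        rw [abs_le] at h1
        have h2 : dev ℓ r (act σ t) i = (act σ t i : ℝ) - θ * r i := by
          simp only [dev, hphs]
        rw [h2] at h1
        have h3 : θ * ρ ≤ θ * r i := mul_le_mul_of_nonneg_left (hρ i) (by linarith)
        have h4 : (1 : ℝ) ≤ (act σ t i : ℝ) := by
          have h5 : (2 * CT + 2) * Real.sqrt θ ≤ θ * ρ := by
            calc (2 * CT + 2) * Real.sqrt θ ≤ (ρ * Real.sqrt θ) * Real.sqrt θ :=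
                  mul_le_mul_of_nonneg_right hsqθ' (Real.sqrt_nonneg _)
              _ = θ * ρ := by rw [mul_assoc, hsq2]; ring
          nlinarith [h1.1]
        exact_mod_cast h4
      let z : Fin n → ℕ := fun i => (act σ t i).toNat
      have hz : (fun i => (z i : ℤ)) = act σ t := by
        funext i
        simp only [z]
        exact Int.toNat_of_nonneg (by linarith [hspos i])
      have hit : Hit z b b (σ b) := by
        apply hP b b b z
        · have := hspos b
          simp only [z]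
          omega
        · rw [hz, hphs]; exact hθ2.le
        · intro i
          rw [hz, hphs]
          have := hdevs i
          have h4 : 0 ≤ CT * Real.sqrt θ := by positivity
          linarith
      refine ⟨b, ?_⟩
      have hch := child_of_hit ℓ σ b t z hit (by
        rw [hz, sub_self]
        constructor
        · simp only [phys_zero]; have := hLR.hℓ b; linarith
        · simp only [phys_zero]; exact hLR.hℓ b)
      rw [hz, sub_self] at hch
      exact Relation.ReflTransGen.single hch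
    | succ k ih =>
      intro t ht1 ht2 hdev
      obtain ⟨hθ1, hθ2⟩ := hbound t ht1 ht2
      set θ := Lam * phys ℓ t with hθ
      have hθx : x₁ ≤ θ := by linarith
      have hphs : phys ℓ (act σ t) = θ := hphysact t
      have hCD' : CD ≤ ε * θ ^ (((n : ℝ) - 1) / 2) := by
        refine le_trans hCD ?_
        apply mul_le_mul_of_nonneg_left _ hε.le
        apply Real.rpow_le_rpow (by positivity) hθ1.le
        have : (2 : ℝ) ≤ n := by exact_mod_cast hn
        linarith
      obtain ⟨z, hz1, hz2, hz3, hz4⟩ := hDio θ ε (by linarith) hε hε1 hCD'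
      set pz := phys ℓ (fun i => (z i : ℤ)) with hpz
      have hdz : ∀ i, |dev ℓ r (fun i => (z i : ℤ)) i| ≤ CT * Real.sqrt θ + 2 * R := by
        intro i
        have h1 : dev ℓ r (fun i => (z i : ℤ)) i = ((z i : ℝ) - θ * r i) + (θ - pz) * r i := by
          simp only [dev, ← hpz]
          push_cast
          ring
        rw [h1]
        refine le_trans (abs_add_le _ _) ?_
        have h2 : |(θ - pz) * r i| ≤ 2 * R := by
          rw [abs_mul, abs_of_pos (by linarith : 0 < θ - pz), abs_of_pos (hLR.hr i)]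
          have : θ - pz ≤ 2 := by linarith
          nlinarith [hR i, hLR.hr i]
        linarith [hz4 i]
      have hsq2 : Real.sqrt θ * Real.sqrt θ = θ := Real.mul_self_sqrt (by linarith)
      have hsq4 : 4 ≤ Real.sqrt θ := by
        apply Real.le_sqrt_of_sq_le
        linarith
      have hsqR : 16 * R + 16 ≤ Real.sqrt θ := by
        apply Real.le_sqrt_of_sq_le
        linarith
      -- sqrt pz is at least (3/4) sqrt θ
      have hsqz : (3 / 4) * Real.sqrt θ ≤ Real.sqrt pz := by
        apply Real.le_sqrt_of_sq_le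
        rw [mul_pow, Real.sq_sqrt (by linarith)]
        have : θ - 2 ≤ pz := by linarith
        nlinarith
      have hdz' : ∀ i, |dev ℓ r (fun i => (z i : ℤ)) i| ≤ 2 * CT * Real.sqrt pz := by
        intro i
        refine le_trans (hdz i) ?_
        have h1 : 2 * R ≤ (1 / 2) * Real.sqrt θ := by linarith
        have h2 : (1 / 2) * Real.sqrt θ ≤ (1 / 2) * (CT * Real.sqrt θ) := by
          have h3 : 0 ≤ Real.sqrt θ := Real.sqrt_nonneg _
          nlinarith
        have h4 : CT * ((3 / 4) * Real.sqrt θ) ≤ CT * Real.sqrt pz :=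
          mul_le_mul_of_nonneg_left hsqz (by linarith)
        linarith
      have hit : Hit z b b (σ b) := by
        apply hP b b b z (hz1 b)
        · linarith
        · exact hdz'
      have hphn : phys ℓ (act σ t - fun i => (z i : ℤ)) = θ - pz := by
        rw [phys_sub, hphs]
      have hch := child_of_hit ℓ σ b t z hit (by
        constructor
        · show -(ℓ b) < phys ℓ (act σ t - fun i => (z i : ℤ))
          rw [hphn]; have := hLR.hℓ b; linarith
        · show phys ℓ (act σ t - fun i => (z i : ℤ)) < ℓ b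
          rw [hphn]; have := hεℓ b; linarith)
      have hnext : Leads ℓ σ ⟨b, b, act σ t - fun i => (z i : ℤ)⟩ := by
        apply ih
        · rw [hphn]; exact hz2
        · rw [hphn]; exact hz3
        · intro i
          rw [dev_sub]
          have h1 := hS.contr t _ hdev i
          have h2 := hdz i
          have h3 : |dev ℓ r (act σ t) i - dev ℓ r (fun i => (z i : ℤ)) i| ≤
              |dev ℓ r (act σ t) i| + |dev ℓ r (fun i => (z i : ℤ)) i| := abs_sub _ _
          have h4 : CT * Real.sqrt θ ≤ (3 / 2) * a := by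
            have h5 : Real.sqrt θ ≤ (3 / 2) * Real.sqrt (Lam * ε) := by
              rw [Real.sqrt_le_left (by positivity), mul_pow, Real.sq_sqrt (by positivity)]
              nlinarith
            simp only [a]
            nlinarith
          have h6 : (1 : ℝ) ≤ (4 / 3) ^ k := one_le_pow₀ (by norm_num)
          have h7 : a ≤ a * (4 / 3) ^ k := by
            have : 0 < a := by linarith
            nlinarith
          have h8 : 4 * a * (4 / 3) ^ (k + 1) / 4 = (4 / 3) * (a * (4 / 3) ^ k) := by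
            rw [pow_succ]; ring
          rw [h8] at h1
          have h9 : 4 * a * (4 / 3) ^ k = 4 * (a * (4 / 3) ^ k) := by ring
          rw [h9]
          nlinarith
      obtain ⟨i, hi⟩ := hnext
      exact ⟨i, Relation.ReflTransGen.head hch hi⟩
  intro t ht1 ht2
  -- choose k
  have hsum : ∀ i, |dev ℓ r t i| ≤ ∑ j, |dev ℓ r t j| := fun i =>
    Finset.single_le_sum (f := fun j => |dev ℓ r t j|) (fun _ _ => abs_nonneg _) (Finset.mem_univ i)
  obtain ⟨k, hk⟩ := pow_unbounded_of_one_lt ((∑ j, |dev ℓ r t j|) / (4 * a)) (by norm_num : (1:ℝ) < 4 / 3)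
  have ha0 : 0 < 4 * a := by linarith
  apply key k t ht1 ht2
  intro i
  refine le_trans (hsum i) ?_
  rw [div_lt_iff₀ ha0] at hk
  linarith

end H34.PS
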