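import Pool.Agent.H34.PS.Base

/-! Independent blocks. -/

/- Sketch: induction on `L / m`: for `L ≥ m` write `L = m + L'`; if `u ++ v` (`|u| = m`) has no
hit then neither `u` nor `v` has one (a hit of `u` or of `v` is a hit of `u ++ v`), so by
`Ex_append` the probability is at most `(1 - Pr p m Hit) * Pr p L' {¬ Hit}`. -/

namespace H34.PS

variable {n : ℕ}

private theorem hit_left {z : Fin n → ℕ} {b₁ b₂ : Fin n} {u : List (Fin n)} (v : List (Fin n))
    (h : Hit z b₁ b₂ u) : Hit z b₁ b₂ (u ++ v) := by
  obtain ⟨x, y, y', rfl, h2⟩ := h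
  exact ⟨x, y, y' ++ v, by simp, h2⟩

private theorem hit_right {z : Fin n → ℕ} {b₁ b₂ : Fin n} (u : List (Fin n)) {v : List (Fin n)}
    (h : Hit z b₁ b₂ v) : Hit z b₁ b₂ (u ++ v) := by
  obtain ⟨x, y, y', rfl, h2⟩ := h
  exact ⟨u ++ x, y, y', by simp, h2⟩

theorem no_hit (p : Fin n → ℝ) (hp : ∀ i, 0 ≤ p i) (hs : ∑ i, p i = 1) (z : Fin n → ℕ)
    (b₁ b₂ : Fin n) (m : ℕ) (hm : 1 ≤ m) (q : ℝ) (hq : q ≤ Pr p m {w | Hit z b₁ b₂ w}) (L : ℕ) :
    Pr p L {w | ¬ Hit z b₁ b₂ w} ≤ (1 - q) ^ (L / m) := by
  have hq1 : q ≤ 1 := hq.trans (Pr_le_one p hp hs m _)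
  have hpm : Pr p m {w | ¬ Hit z b₁ b₂ w} ≤ 1 - q := by
    have h1 := Pr_compl p hs m {w | Hit z b₁ b₂ w}
    have h2 : ({w | Hit z b₁ b₂ w} : Set (List (Fin n)))ᶜ = {w | ¬ Hit z b₁ b₂ w} := rfl
    rw [h2] at h1
    rw [h1]
    linarith
  induction L using Nat.strong_induction_on with
  | _ L ih =>
    rcases lt_or_ge L m with hL | hL
    · rw [Nat.div_eq_of_lt hL, pow_zero]
      exact Pr_le_one p hp hs L _
    · obtain ⟨L', rfl⟩ : ∃ L', L = m + L' := ⟨L - m, by omega⟩
      have h1 := ih L' (by omega)
      have h2 : (m + L') / m = L' / m + 1 := by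
        rw [Nat.add_div_left _ (by omega)]
      rw [h2, pow_succ]
      have h3 : Pr p (m + L') {w | ¬ Hit z b₁ b₂ w} ≤
          Pr p m {w | ¬ Hit z b₁ b₂ w} * Pr p L' {w | ¬ Hit z b₁ b₂ w} := by
        unfold Pr
        rw [Ex_append]
        have h4 : ∀ u : List (Fin n), Ex p L' (fun v =>
            ({w | ¬ Hit z b₁ b₂ w} : Set (List (Fin n))).indicator (1 : List (Fin n) → ℝ) (u ++ v)) ≤
            Ex p L' (({w | ¬ Hit z b₁ b₂ w} : Set (List (Fin n))).indicator 1) *
              ({w | ¬ Hit z b₁ b₂ w} : Set (List (Fin n))).indicator (1 : List (Fin n) → ℝ) u := by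
          intro u
          by_cases hu : Hit z b₁ b₂ u
          · have h5 : ∀ v : List (Fin n),
                ({w | ¬ Hit z b₁ b₂ w} : Set (List (Fin n))).indicator (1 : List (Fin n) → ℝ)
                  (u ++ v) = 0 := by
              intro v
              apply Set.indicator_of_notMem
              intro h
              exact h (hit_left v hu)
            have h6 : ({w | ¬ Hit z b₁ b₂ w} : Set (List (Fin n))).indicator
                (1 : List (Fin n) → ℝ) u = 0 := by
              apply Set.indicator_of_notMem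
              intro h
              exact h hu
            rw [h6, mul_zero]
            simp only [h5]
            rw [Ex_zero_fun]
          · have h6 : ({w | ¬ Hit z b₁ b₂ w} : Set (List (Fin n))).indicator
                (1 : List (Fin n) → ℝ) u = 1 := Set.indicator_of_mem (by exact hu) _
            rw [h6, mul_one]
            apply Ex_mono p hp
            intro v _
            by_cases hv : Hit z b₁ b₂ v
            · have h7 : ({w | ¬ Hit z b₁ b₂ w} : Set (List (Fin n))).indicator
                  (1 : List (Fin n) → ℝ) (u ++ v) = 0 := by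
                apply Set.indicator_of_notMem
                intro h
                exact h (hit_right u hv)
              rw [h7]
              exact Set.indicator_nonneg (fun _ _ => zero_le_one) v
            · have h7 : ({w | ¬ Hit z b₁ b₂ w} : Set (List (Fin n))).indicator
                  (1 : List (Fin n) → ℝ) v = 1 := Set.indicator_of_mem (by exact hv) _
              rw [h7]
              exact Set.indicator_le_self' (fun _ _ => zero_le_one) (u ++ v)
        refine (Ex_mono p hp m _ _ fun u _ => h4 u).trans ?_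
        rw [Ex_const_mul, mul_comm]
      refine h3.trans ?_
      rw [mul_comm]
      exact mul_le_mul h1 hpm (Pr_nonneg p hp m _) (pow_nonneg (by linarith) _)

end H34.PS
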