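import Pool.Agent.H34.PS.Spec

/-! Positivity of the right eigenvector and the standing assumptions for `M ^ K`. -/

/- Sketch: `rpos`: `M^k e_j = lam^k ℓ_j r + M^k (e_j - ℓ_j r)`, so `ℓ_j r i = lim (M^k)_{ij}/lam^k
≥ 0`; so `r ≥ 0`, `r ≠ 0`, and `r = lam^(-k) M^k r > 0` for the `k` of `hprim`.
`ndata_pow`: `left`/`right` by induction on `K`; `near` with `v = e_j - ℓ_j r`; `contr` for
`C ρ^K ≤ 1/4`. -/

namespace H34.PS

variable {n : ℕ}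

private theorem rpos_left (M : Matrix (Fin n) (Fin n) ℕ) (lam : ℝ) (ℓ : Fin n → ℝ)
    (hM : ∀ j, ∑ i, ℓ i * (M i j : ℝ) = lam * ℓ j) (K : ℕ) (j : Fin n) :
    ∑ i, ℓ i * ((M ^ K) i j : ℝ) = lam ^ K * ℓ j := by
  induction K generalizing j with
  | zero => simp [Matrix.one_apply]
  | succ K ih =>
    simp only [pow_succ, Matrix.mul_apply]
    push_cast
    calc ∑ i, ℓ i * ∑ k, ((M ^ K) i k : ℝ) * (M k j : ℝ)
        = ∑ i, ∑ k, ℓ i * ((M ^ K) i k : ℝ) * (M k j : ℝ) := by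
          refine Finset.sum_congr rfl fun i _ => ?_
          rw [Finset.mul_sum]
          exact Finset.sum_congr rfl fun k _ => by ring
      _ = ∑ k, ∑ i, ℓ i * ((M ^ K) i k : ℝ) * (M k j : ℝ) := Finset.sum_comm
      _ = ∑ k, (lam ^ K * ℓ k) * (M k j : ℝ) := by
          refine Finset.sum_congr rfl fun k _ => ?_
          rw [← Finset.sum_mul, ih k]
      _ = lam ^ K * ∑ k, ℓ k * (M k j : ℝ) := by
          rw [Finset.mul_sum]
          exact Finset.sum_congr rfl fun k _ => by ring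
      _ = lam ^ K * lam * ℓ j := by rw [hM j]; ring

private theorem rpos_right (M : Matrix (Fin n) (Fin n) ℕ) (lam : ℝ) (r : Fin n → ℝ)
    (hMr : ∀ i, ∑ j, (M i j : ℝ) * r j = lam * r i) (K : ℕ) (i : Fin n) :
    ∑ j, ((M ^ K) i j : ℝ) * r j = lam ^ K * r i := by
  induction K generalizing i with
  | zero => simp [Matrix.one_apply]
  | succ K ih =>
    simp only [pow_succ, Matrix.mul_apply]
    push_cast
    calc ∑ j, (∑ k, ((M ^ K) i k : ℝ) * (M k j : ℝ)) * r j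
        = ∑ j, ∑ k, ((M ^ K) i k : ℝ) * ((M k j : ℝ) * r j) := by
          refine Finset.sum_congr rfl fun i _ => ?_
          rw [Finset.sum_mul]
          exact Finset.sum_congr rfl fun k _ => by ring
      _ = ∑ k, ∑ j, ((M ^ K) i k : ℝ) * ((M k j : ℝ) * r j) := Finset.sum_comm
      _ = ∑ k, ((M ^ K) i k : ℝ) * (lam * r k) := by
          refine Finset.sum_congr rfl fun k _ => ?_
          rw [← Finset.mul_sum, hMr k]
      _ = lam * ∑ k, ((M ^ K) i k : ℝ) * r k := by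
          rw [Finset.mul_sum]
          exact Finset.sum_congr rfl fun k _ => by ring
      _ = lam ^ K * lam * r i := by rw [ih i]; ring

private theorem rpos_near (M : Matrix (Fin n) (Fin n) ℕ) (lam : ℝ) (ℓ : Fin n → ℝ)
    (hℓ : ∀ i, 0 < ℓ i)
    (r : Fin n → ℝ) (hr : ∑ i, ℓ i * r i = 1) (hMr : ∀ i, ∑ j, (M i j : ℝ) * r j = lam * r i)
    (C ρ : ℝ) (hC : 0 ≤ C) (hρ0 : 0 ≤ ρ) (hρ : ρ < 1)
    (hcon : ∀ (k : ℕ) (v : Fin n → ℝ) (B : ℝ), ∑ i, ℓ i * v i = 0 →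
      (∀ i, |v i| ≤ B) → ∀ i, |∑ j, ((M ^ k) i j : ℝ) * v j| ≤ C * ρ ^ k * B) (K : ℕ)
    (k j : Fin n) : |((M ^ K) k j : ℝ) - lam ^ K * ℓ j * r k| ≤
      C * (1 + (∑ i, ℓ i) * ∑ i, |r i|) := by
  have hB : ∀ i, |((if i = j then 1 else 0 : ℝ) - ℓ j * r i)| ≤ 1 + (∑ i, ℓ i) * ∑ i, |r i| := by
    intro i
    refine (abs_sub _ _).trans (add_le_add ?_ ?_)
    · split_ifs <;> simp
    · rw [abs_mul, abs_of_pos (hℓ j)]
      refine mul_le_mul ?_ ?_ (abs_nonneg _) (Finset.sum_nonneg fun i _ => (hℓ i).le)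
      · exact Finset.single_le_sum (f := ℓ) (fun i _ => (hℓ i).le) (Finset.mem_univ j)
      · exact Finset.single_le_sum (f := fun i => |r i|) (fun i _ => abs_nonneg _)
          (Finset.mem_univ i)
  have h0 : ∑ i, ℓ i * ((if i = j then 1 else 0 : ℝ) - ℓ j * r i) = 0 := by
    simp only [mul_sub, Finset.sum_sub_distrib]
    have h1 : ∑ i, ℓ i * (if i = j then 1 else 0 : ℝ) = ℓ j := by simp
    have h2 : ∑ i, ℓ i * (ℓ j * r i) = ℓ j * ∑ i, ℓ i * r i := by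
      rw [Finset.mul_sum]
      exact Finset.sum_congr rfl fun i _ => by ring
    rw [h1, h2, hr, mul_one, sub_self]
  have h := hcon K _ _ h0 hB k
  have e : ∑ i, ((M ^ K) k i : ℝ) * ((if i = j then 1 else 0 : ℝ) - ℓ j * r i) =
      ((M ^ K) k j : ℝ) - lam ^ K * ℓ j * r k := by
    simp only [mul_sub, Finset.sum_sub_distrib]
    have h1 : ∑ i, ((M ^ K) k i : ℝ) * (if i = j then 1 else 0 : ℝ) = ((M ^ K) k j : ℝ) := by simp
    have h2 : ∑ i, ((M ^ K) k i : ℝ) * (ℓ j * r i) = ℓ j * ∑ i, ((M ^ K) k i : ℝ) * r i := by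
      rw [Finset.mul_sum]
      exact Finset.sum_congr rfl fun i _ => by ring
    rw [h1, h2, rpos_right M lam r hMr K k]
    ring
  rw [e] at h
  refine h.trans ?_
  have hp : ρ ^ K ≤ 1 := pow_le_one₀ hρ0 hρ.le
  have hB0 : 0 ≤ 1 + (∑ i, ℓ i) * ∑ i, |r i| := (abs_nonneg _).trans (hB j)
  calc C * ρ ^ K * (1 + (∑ i, ℓ i) * ∑ i, |r i|) ≤ C * 1 * (1 + (∑ i, ℓ i) * ∑ i, |r i|) :=
        mul_le_mul_of_nonneg_right (mul_le_mul_of_nonneg_left hp hC) hB0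
    _ = C * (1 + (∑ i, ℓ i) * ∑ i, |r i|) := by ring

theorem rpos (M : Matrix (Fin n) (Fin n) ℕ) (hn : 1 ≤ n)
    (hprim : ∃ k, ∀ i j, 0 < (M ^ k) i j) (lam : ℝ) (h1 : 1 < lam) (ℓ : Fin n → ℝ)
    (hℓ : ∀ i, 0 < ℓ i) (hM : ∀ j, ∑ i, ℓ i * (M i j : ℝ) = lam * ℓ j)
    (r : Fin n → ℝ) (hr : ∑ i, ℓ i * r i = 1) (hMr : ∀ i, ∑ j, (M i j : ℝ) * r j = lam * r i)
    (C ρ : ℝ) (hC : 0 ≤ C) (hρ0 : 0 ≤ ρ) (hρ : ρ < 1)
    (hcon : ∀ (k : ℕ) (v : Fin n → ℝ) (B : ℝ), ∑ i, ℓ i * v i = 0 →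
      (∀ i, |v i| ≤ B) → ∀ i, |∑ j, ((M ^ k) i j : ℝ) * v j| ≤ C * ρ ^ k * B) :
    ∀ i, 0 < r i := by
  have hnn : ∀ i, 0 ≤ r i := by
    intro i
    by_contra hneg
    push Not at hneg
    set B : ℝ := C * (1 + (∑ i, ℓ i) * ∑ i, |r i|) with hB
    obtain ⟨k, hk⟩ := pow_unbounded_of_one_lt (B / (ℓ i * (-r i))) h1
    have hpos : 0 < ℓ i * (-r i) := mul_pos (hℓ i) (by linarith)
    rw [div_lt_iff₀ hpos] at hk
    have h2 := rpos_near M lam ℓ hℓ r hr hMr C ρ hC hρ0 hρ hcon k i i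
    have h3 := (abs_le.1 h2).2
    have h4 : (0 : ℝ) ≤ ((M ^ k) i i : ℝ) := Nat.cast_nonneg _
    nlinarith
  obtain ⟨k, hk⟩ := hprim
  have hex : ∃ j, 0 < r j := by
    by_contra hcon'
    push Not at hcon'
    have h0 : ∀ j, r j = 0 := fun j => le_antisymm (hcon' j) (hnn j)
    simp only [h0, mul_zero, Finset.sum_const_zero] at hr
    exact zero_ne_one hr
  obtain ⟨j, hj⟩ := hex
  intro i
  have h2 := rpos_right M lam r hMr k i
  have h3 : 0 < ∑ j, ((M ^ k) i j : ℝ) * r j := by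
    refine Finset.sum_pos' (fun j _ => mul_nonneg (Nat.cast_nonneg _) (hnn j)) ⟨j, Finset.mem_univ j,
      mul_pos (by exact_mod_cast hk i j) hj⟩
  rw [h2] at h3
  have h4 : 0 < lam ^ k := pow_pos (by linarith) k
  exact (mul_pos_iff_of_pos_left h4).1 h3

theorem ndata_pow (M : Matrix (Fin n) (Fin n) ℕ) (lam : ℝ) (h1 : 1 < lam) (ℓ : Fin n → ℝ)
    (hℓ : ∀ i, 0 < ℓ i) (hM : ∀ j, ∑ i, ℓ i * (M i j : ℝ) = lam * ℓ j)
    (r : Fin n → ℝ) (hr : ∑ i, ℓ i * r i = 1) (hMr : ∀ i, ∑ j, (M i j : ℝ) * r j = lam * r i)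
    (C ρ : ℝ) (hC : 0 ≤ C) (hρ0 : 0 ≤ ρ) (hρ : ρ < 1)
    (hcon : ∀ (k : ℕ) (v : Fin n → ℝ) (B : ℝ), ∑ i, ℓ i * v i = 0 →
      (∀ i, |v i| ≤ B) → ∀ i, |∑ j, ((M ^ k) i j : ℝ) * v j| ≤ C * ρ ^ k * B) :
    ∃ C₁ : ℝ, ∀ᶠ K : ℕ in Filter.atTop, NData ℓ r C₁ (lam ^ K) (M ^ K) := by
  refine ⟨C * (1 + (∑ i, ℓ i) * ∑ i, |r i|), ?_⟩
  have hlim : Filter.Tendsto (fun K : ℕ => C * ρ ^ K) Filter.atTop (nhds 0) := by
    have := (tendsto_pow_atTop_nhds_zero_of_lt_one hρ0 hρ).const_mul C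
    rwa [mul_zero] at this
  filter_upwards [hlim.eventually (gt_mem_nhds (show (0 : ℝ) < 1 / 4 by norm_num))] with K hK
  refine ⟨rpos_left M lam ℓ hM K, rpos_right M lam r hMr K, fun k j => ?_, fun v B h0 hv i => ?_⟩
  · exact rpos_near M lam ℓ hℓ r hr hMr C ρ hC hρ0 hρ hcon K k j
  · refine (hcon K v B h0 hv i).trans ?_
    have hB0 : 0 ≤ B := (abs_nonneg _).trans (hv i)
    nlinarith

end H34.PS
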