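import Pool.Agent.H34.PS.PmfLow
import Pool.Agent.H34.PS.Seq

/-! The exposure argument for near coincidences, in abstract form.
`T h ψ b`: after reading the prefix `h` there is a known target tile of type `b` at position `ψ`. -/

/- Sketch: apply `seq_exposure` with `Bad X = (¬ Good X ∧ H + CS V ≤ wl X)`, potential
`pot h = ⌊(H - max (wl h) (lo + A)) / (CS V)⌋₊`. If `pot h ≥ 1` and `wl h < lo`: skip. Otherwise
`lo ≤ wl h ≤ H`: take the target `ψ, b`, `D = ψ - wl h ∈ [V, V + 2A]`, `DioProp` with `x = D` gives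
`z`, `m = ∑ z i`; block length `m + 1`, `S = {w₀ ++ [b] : w₀ has counts z}` (`wl w₀ = phys z`),
`Pr p (m+1) S = Pr p m {counts z} * p b ≥ κ V^(-(n-1)/2)` by `pmf_low` (`|z i - m p i| ≤ C' sqrt m`
since `|z i - D r i| ≤ CT sqrt D`, `m = D ∑ r k + O(sqrt D)`, `V |p i - r i/∑ r| ≤ C`, and
`c' V ≤ m ≤ C'' V`). `(m + 1) A ≤ CS V` for a suitable constant `CS`, so blocks move `wl` by at most
`CS V`: potential drops by at most one, and shorter words cannot be bad (`wl h ≤ H - CS V`). -/

namespace H34.PS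

private theorem wl_le_len {n : ℕ} (ℓ : Fin n → ℝ) (A : ℝ) (hA : ∀ i, ℓ i ≤ A) (w : List (Fin n)) :
    wl ℓ w ≤ w.length * A := by
  induction w with
  | nil => simp
  | cons a w ih =>
    rw [wl_cons, List.length_cons]
    push_cast
    have := hA a
    linarith

private theorem wl_eq_phys {n : ℕ} (ℓ : Fin n → ℝ) (w : List (Fin n)) (z : Fin n → ℕ)
    (h : ∀ i, w.count i = z i) : wl ℓ w = phys ℓ (fun i => (z i : ℤ)) := by
  rw [← phys_ab]
  congr 1
  funext i
  simp [ab, h i]

theorem stage (n : ℕ) (hn : 2 ≤ n) (ℓ r : Fin n → ℝ) (hLR : LR ℓ r) (CT CD x₀ : ℝ)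
    (hDio : DioProp ℓ r CT CD x₀) (c C A : ℝ) (hc : 0 < c) (hA : ∀ i, ℓ i ≤ A) :
    ∃ κ CS x₁ : ℝ, 0 < κ ∧ κ ≤ 1 ∧ 1 ≤ CS ∧ 1 ≤ x₁ ∧ ∀ V ε : ℝ, x₁ ≤ V → 0 < ε → ε ≤ 1 →
      CD ≤ ε * V ^ (((n : ℝ) - 1) / 2) → ∀ p : Fin n → ℝ, PV c p →
      (∀ i, V * |p i - r i / ∑ k, r k| ≤ C) →
      ∀ (Good : List (Fin n) → Prop) (T : List (Fin n) → ℝ → Fin n → Prop) (lo H : ℝ), 0 ≤ lo →
      (∀ h, lo ≤ wl ℓ h → wl ℓ h ≤ H → ∃ (ψ : ℝ) (b : Fin n), T h ψ b ∧
        wl ℓ h + V ≤ ψ ∧ ψ ≤ wl ℓ h + V + 2 * A) →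
      (∀ h w b w' ψ, T h ψ b → ε < ψ - wl ℓ (h ++ w) → ψ - wl ℓ (h ++ w) < 2 * ε →
        Good (h ++ w ++ b :: w')) →
      ∀ R q : ℕ, lo + A + q * (CS * V) ≤ H →
        Pr p R {X | ¬ Good X ∧ H + CS * V ≤ wl ℓ X} ≤
          (1 - κ * V ^ (-(((n : ℝ) - 1) / 2))) ^ q := by
  classical
  have hn0 : 0 < n := by omega
  let i0 : Fin n := ⟨0, hn0⟩
  have hA0 : 0 < A := lt_of_lt_of_le (hLR.hℓ i0) (hA i0)
  set ρ : ℝ := ∑ k, r k with hρdef
  have hρ0 : 0 < ρ := Finset.sum_pos (fun i _ => hLR.hr i) ⟨i0, Finset.mem_univ _⟩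
  have hrρ : ∀ i, r i ≤ ρ := fun i =>
    Finset.single_le_sum (f := r) (fun j _ => (hLR.hr j).le) (Finset.mem_univ i)
  set e : ℝ := ((n : ℝ) - 1) / 2 with he
  have he0 : 0 < e := by
    have : (2 : ℝ) ≤ n := by exact_mod_cast hn
    simp only [he]; linarith
  -- constants
  let CT1 : ℝ := |CT|
  have hCT1 : 0 ≤ CT1 := abs_nonneg _
  let G : ℝ := ρ + n * CT1
  have hG : 0 < G := by positivity
  let Cp : ℝ := (CT1 + n * CT1 + 2 * G * |C|) * Real.sqrt (2 / ρ)
  have hCp : 0 ≤ Cp := by positivity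
  obtain ⟨κ0, hκ0, hpmf⟩ := pmf_low n (by omega) c Cp hc hCp
  let κ : ℝ := min 1 (c * κ0 * (2 * G) ^ (-e))
  have hκpos : 0 < κ := lt_min one_pos (by positivity)
  let CS : ℝ := max 1 ((2 * G + 1) * A)
  have hCS1 : 1 ≤ CS := le_max_left _ _
  have hCS2 : (2 * G + 1) * A ≤ CS := le_max_right _ _
  let x₁ : ℝ := max (max 1 x₀) (max (2 * A) ((2 * (n * CT1) / ρ) ^ 2))
  refine ⟨κ, CS, x₁, hκpos, min_le_left _ _, hCS1, le_trans (le_max_left _ _) (le_max_left _ _), ?_⟩
  intro V ε hV hε hε1 hCD p hp hpr Good T lo H hlo hT hGood R q hq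
  have hV1 : 1 ≤ V := le_trans (le_trans (le_max_left _ _) (le_max_left _ _)) hV
  have hVx : x₀ ≤ V := le_trans (le_trans (le_max_right _ _) (le_max_left _ _)) hV
  have hVA : 2 * A ≤ V := le_trans (le_trans (le_max_left _ _) (le_max_right _ _)) hV
  have hVC : (2 * (n * CT1) / ρ) ^ 2 ≤ V := le_trans (le_trans (le_max_right _ _) (le_max_right _ _)) hV
  have hV0 : 0 < V := by linarith
  have hCSV : 0 < CS * V := by positivity
  have hp0 : ∀ i, 0 ≤ p i := fun i => le_trans hc.le (hp.low i)
  have hVe : 0 < V ^ (-e) := Real.rpow_pos_of_pos hV0 _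
  have hVe1 : V ^ (-e) ≤ 1 := Real.rpow_le_one_of_one_le_of_nonpos hV1 (by linarith)
  have hqq0 : 0 ≤ κ * V ^ (-e) := by positivity
  have hqq1 : κ * V ^ (-e) ≤ 1 := by
    have : κ ≤ 1 := min_le_left _ _
    nlinarith
  let Bad : List (Fin n) → Prop := fun X => ¬ Good X ∧ H + CS * V ≤ wl ℓ X
  let pot : List (Fin n) → ℕ := fun h => ⌊(H - max (wl ℓ h) (lo + A)) / (CS * V)⌋₊
  have hpot1 : ∀ h, 1 ≤ pot h → CS * V ≤ H - max (wl ℓ h) (lo + A) := by
    intro h hh
    have h1 : (1 : ℝ) ≤ (H - max (wl ℓ h) (lo + A)) / (CS * V) := by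
      have := (Nat.one_le_floor_iff _).mp hh
      exact this
    rw [le_div_iff₀ hCSV] at h1
    linarith
  have hpotw : ∀ h, 1 ≤ pot h → wl ℓ h + CS * V ≤ H := by
    intro h hh
    have := hpot1 h hh
    have := le_max_left (wl ℓ h) (lo + A)
    linarith
  have hstep : ∀ h, 1 ≤ pot h → (∀ a, pot h ≤ pot (h ++ [a])) ∨
      ∃ (m : ℕ) (S : Set (List (Fin n))), 1 ≤ m ∧ κ * V ^ (-e) ≤ Pr p m S ∧
        (∀ w ∈ S, w.length = m → ∀ w', ¬ Bad (h ++ w ++ w')) ∧
        (∀ w : List (Fin n), w.length = m → pot h ≤ pot (h ++ w) + 1) ∧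
        (∀ w : List (Fin n), w.length < m → ¬ Bad (h ++ w)) := by
    intro h hh
    rcases lt_or_ge (wl ℓ h) lo with hlt | hge
    · left
      intro a
      have h1 : wl ℓ (h ++ [a]) ≤ lo + A := by
        simp only [wl_append, wl_cons, wl_nil]
        have := hA a
        linarith
      have h2 : wl ℓ h ≤ lo + A := by linarith
      simp only [pot]
      rw [max_eq_right h1, max_eq_right h2]
    · right
      have hwH := hpotw h hh
      obtain ⟨ψ, b, hTb, hψ1, hψ2⟩ := hT h hge (by linarith)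
      set D := ψ - wl ℓ h with hD
      have hD1 : V ≤ D := by linarith
      have hD2 : D ≤ 2 * V := by linarith
      have hD0 : 0 < D := by linarith
      have hD1' : 1 ≤ D := by linarith
      have hCD' : CD ≤ ε * D ^ e := by
        refine le_trans hCD ?_
        apply mul_le_mul_of_nonneg_left _ hε.le
        exact Real.rpow_le_rpow hV0.le hD1 he0.le
      obtain ⟨z, hz1, hz2, hz3, hz4⟩ := hDio D ε (by linarith) hε hε1 hCD'
      set sD := Real.sqrt D with hsD
      have hsD1 : 1 ≤ sD := by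
        rw [hsD]; exact Real.one_le_sqrt.mpr hD1'
      have hsDD : sD * sD = D := Real.mul_self_sqrt hD0.le
      have hsDle : sD ≤ D := by nlinarith
      have hz4' : ∀ i, |(z i : ℝ) - D * r i| ≤ CT1 * sD := by
        intro i
        refine le_trans (hz4 i) ?_
        exact mul_le_mul_of_nonneg_right (le_abs_self _) (by linarith)
      let m0 : ℕ := ∑ i, z i
      have hm0 : |(m0 : ℝ) - D * ρ| ≤ n * CT1 * sD := by
        have h1 : (m0 : ℝ) - D * ρ = ∑ i, ((z i : ℝ) - D * r i) := by
          simp only [m0]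
          push_cast
          rw [Finset.sum_sub_distrib, ← Finset.mul_sum]
        rw [h1]
        refine le_trans (Finset.abs_sum_le_sum_abs _ _) ?_
        refine le_trans (Finset.sum_le_sum (fun i _ => hz4' i)) ?_
        rw [Finset.sum_const, Finset.card_univ, Fintype.card_fin, nsmul_eq_mul]
        linarith
      have hm0' := abs_le.mp hm0
      have hm0up : (m0 : ℝ) ≤ D * G := by
        have h1 : n * CT1 * sD ≤ n * CT1 * D := by
          apply mul_le_mul_of_nonneg_left hsDle (by positivity)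
        simp only [G]
        nlinarith [hm0'.2]
      have hm0up2 : (m0 : ℝ) ≤ 2 * G * V := by
        nlinarith
      have hsDbig : 2 * (n * CT1) / ρ ≤ sD := by
        rw [hsD]
        apply Real.le_sqrt_of_sq_le
        linarith
      have hsDbig' : 2 * (n * CT1) ≤ ρ * sD := by
        rw [div_le_iff₀ hρ0] at hsDbig
        linarith
      have hm0low : D * ρ / 2 ≤ (m0 : ℝ) := by
        have h1 : n * CT1 * sD ≤ D * ρ / 2 := by
          have h2 : 2 * (n * CT1) * sD ≤ ρ * sD * sD :=
            mul_le_mul_of_nonneg_right hsDbig' (by linarith)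
          have h3 : ρ * sD * sD = D * ρ := by rw [mul_assoc, hsDD]; ring
          linarith
        linarith [hm0'.1]
      have hm0pos : 0 < (m0 : ℝ) := lt_of_lt_of_le (by positivity) hm0low
      have hm01 : 1 ≤ m0 := by exact_mod_cast Nat.one_le_iff_ne_zero.mpr (by
        intro h0; rw [h0] at hm0pos; simp at hm0pos)
      have hsDm : sD ≤ Real.sqrt (2 / ρ) * Real.sqrt m0 := by
        rw [← Real.sqrt_mul (by positivity), hsD]
        apply Real.sqrt_le_sqrt
        have : D ≤ 2 / ρ * m0 := by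
          rw [div_mul_eq_mul_div, le_div_iff₀ hρ0]
          linarith
        exact this
      have hdev : ∀ i, |(z i : ℝ) - m0 * p i| ≤ Cp * Real.sqrt m0 := by
        intro i
        have h1 : (z i : ℝ) - m0 * p i = ((z i : ℝ) - D * r i) + (D * ρ - m0) * (r i / ρ)
            + m0 * (r i / ρ - p i) := by
          field_simp
          ring
        have h2 : |(D * ρ - m0) * (r i / ρ)| ≤ n * CT1 * sD := by
          rw [abs_mul]
          have h3 : |r i / ρ| ≤ 1 := by
            rw [abs_of_nonneg (div_nonneg (hLR.hr i).le hρ0.le), div_le_one hρ0]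
            exact hrρ i
          have h4 : |D * ρ - m0| ≤ n * CT1 * sD := by
            rw [abs_sub_comm]; exact hm0
          calc |D * ρ - m0| * |r i / ρ| ≤ |D * ρ - m0| * 1 :=
                mul_le_mul_of_nonneg_left h3 (abs_nonneg _)
            _ ≤ _ := by rw [mul_one]; exact h4
        have h5 : |(m0 : ℝ) * (r i / ρ - p i)| ≤ 2 * G * |C| * sD := by
          rw [abs_mul, abs_of_pos hm0pos, abs_sub_comm]
          have h6 : V * |p i - r i / ρ| ≤ |C| := le_trans (hpr i) (le_abs_self _)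
          calc (m0 : ℝ) * |p i - r i / ρ| ≤ (2 * G * V) * |p i - r i / ρ| :=
                mul_le_mul_of_nonneg_right hm0up2 (abs_nonneg _)
            _ = 2 * G * (V * |p i - r i / ρ|) := by ring
            _ ≤ 2 * G * |C| := mul_le_mul_of_nonneg_left h6 (by positivity)
            _ ≤ 2 * G * |C| * sD := by
                have : 0 ≤ 2 * G * |C| := by positivity
                nlinarith
        have h7 : |(z i : ℝ) - m0 * p i| ≤ (CT1 + n * CT1 + 2 * G * |C|) * sD := by
          rw [h1]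
          refine le_trans (abs_add_three _ _ _) ?_
          have := hz4' i
          linarith
        refine le_trans h7 ?_
        have h8 : (CT1 + n * CT1 + 2 * G * |C|) * sD ≤
            (CT1 + n * CT1 + 2 * G * |C|) * (Real.sqrt (2 / ρ) * Real.sqrt m0) :=
          mul_le_mul_of_nonneg_left hsDm (by positivity)
        refine le_trans h8 (le_of_eq ?_)
        simp only [Cp]
        ring
      have hpm := hpmf p hp z m0 rfl hm01 hdev
      refine ⟨m0 + 1, {w | ∃ w₀ : List (Fin n), w = w₀ ++ [b] ∧ ∀ i, w₀.count i = z i},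
        by omega, ?_, ?_, ?_, ?_⟩
      · -- probability
        have h1 : p b * Pr p m0 {w | ∀ i, w.count i = z i} ≤
            Pr p (m0 + 1) {w | ∃ w₀ : List (Fin n), w = w₀ ++ [b] ∧ ∀ i, w₀.count i = z i} := by
          unfold Pr
          rw [Ex_append, ← Ex_const_mul]
          apply Ex_mono p hp0
          intro w _
          rw [Ex_one]
          have h2 : p b * ({w | ∃ w₀ : List (Fin n), w = w₀ ++ [b] ∧ ∀ i, w₀.count i = z i} :
              Set (List (Fin n))).indicator 1 (w ++ [b]) ≤ ∑ a, p a *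
              ({w | ∃ w₀ : List (Fin n), w = w₀ ++ [b] ∧ ∀ i, w₀.count i = z i} :
              Set (List (Fin n))).indicator (1 : List (Fin n) → ℝ) (w ++ [a]) := by
            apply Finset.single_le_sum (f := fun a => p a *
              ({w | ∃ w₀ : List (Fin n), w = w₀ ++ [b] ∧ ∀ i, w₀.count i = z i} :
              Set (List (Fin n))).indicator (1 : List (Fin n) → ℝ) (w ++ [a])) _ (Finset.mem_univ b)
            intro a _
            exact mul_nonneg (hp0 a) (Set.indicator_nonneg (fun _ _ => zero_le_one) _)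
          refine le_trans ?_ h2
          apply mul_le_mul_of_nonneg_left _ (hp0 b)
          by_cases hw : w ∈ ({w | ∀ i, w.count i = z i} : Set (List (Fin n)))
          · rw [Set.indicator_of_mem hw, Set.indicator_of_mem]
            · simp
            · exact ⟨w, rfl, hw⟩
          · rw [Set.indicator_of_notMem hw]
            exact Set.indicator_nonneg (fun _ _ => zero_le_one) _
        refine le_trans ?_ h1
        have h3 : (2 * G) ^ (-e) * V ^ (-e) ≤ (m0 : ℝ) ^ (-e) := by
          rw [← Real.mul_rpow (by positivity) hV0.le]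
          exact Real.rpow_le_rpow_of_nonpos hm0pos hm0up2 (by linarith)
        calc κ * V ^ (-e) ≤ (c * κ0 * (2 * G) ^ (-e)) * V ^ (-e) :=
              mul_le_mul_of_nonneg_right (min_le_right _ _) hVe.le
          _ = c * (κ0 * ((2 * G) ^ (-e) * V ^ (-e))) := by ring
          _ ≤ c * (κ0 * (m0 : ℝ) ^ (-e)) := by
              apply mul_le_mul_of_nonneg_left _ hc.le
              exact mul_le_mul_of_nonneg_left h3 hκ0.le
          _ ≤ c * Pr p m0 {w | ∀ i, w.count i = z i} := mul_le_mul_of_nonneg_left hpm hc.le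
          _ ≤ p b * Pr p m0 {w | ∀ i, w.count i = z i} :=
              mul_le_mul_of_nonneg_right (hp.low b) (Pr_nonneg p hp0 _ _)
      · rintro w ⟨w₀, rfl, hw₀⟩ _ w' ⟨hbad, _⟩
        apply hbad
        have h1 : wl ℓ w₀ = phys ℓ (fun i => (z i : ℤ)) := wl_eq_phys ℓ w₀ z hw₀
        have h2 : ψ - wl ℓ (h ++ w₀) = D - phys ℓ (fun i => (z i : ℤ)) := by
          rw [wl_append, h1, hD]; ring
        have := hGood h w₀ b w' ψ hTb (by rw [h2]; exact hz2) (by rw [h2]; exact hz3)
        simpa using this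
      · intro w hw
        have h1 : wl ℓ (h ++ w) ≤ wl ℓ h + CS * V := by
          rw [wl_append]
          have h2 := wl_le_len ℓ A hA w
          rw [hw] at h2
          push_cast at h2
          have h3 : ((m0 : ℝ) + 1) * A ≤ CS * V := by
            calc ((m0 : ℝ) + 1) * A ≤ (2 * G * V + V) * A :=
                  mul_le_mul_of_nonneg_right (by linarith) hA0.le
              _ = (2 * G + 1) * A * V := by ring
              _ ≤ CS * V := mul_le_mul_of_nonneg_right hCS2 hV0.le
          linarith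
        have h4 : max (wl ℓ (h ++ w)) (lo + A) ≤ max (wl ℓ h) (lo + A) + CS * V := by
          apply max_le
          · have := le_max_left (wl ℓ h) (lo + A); linarith
          · have := le_max_right (wl ℓ h) (lo + A); linarith
        have h5 := hpot1 h hh
        have h6 : 0 ≤ (H - max (wl ℓ (h ++ w)) (lo + A)) / (CS * V) := by
          apply div_nonneg _ hCSV.le
          linarith
        simp only [pot]
        rw [← Nat.floor_add_one h6]
        apply Nat.floor_le_floor
        rw [div_add_one hCSV.ne']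
        apply div_le_div_of_nonneg_right _ hCSV.le
        linarith
      · rintro w hw ⟨_, hbad⟩
        rw [wl_append] at hbad
        have h2 := wl_le_len ℓ A hA w
        have h3 : (w.length : ℝ) * A ≤ CS * V := by
          have hw' : (w.length : ℝ) ≤ m0 + 1 := by exact_mod_cast hw.le
          calc (w.length : ℝ) * A ≤ ((m0 : ℝ) + 1) * A := mul_le_mul_of_nonneg_right hw' hA0.le
            _ ≤ (2 * G * V + V) * A := mul_le_mul_of_nonneg_right (by linarith) hA0.le
            _ = (2 * G + 1) * A * V := by ring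
            _ ≤ CS * V := mul_le_mul_of_nonneg_right hCS2 hV0.le
        linarith
  have hmain := seq_exposure p hp0 hp.sum (κ * V ^ (-e)) hqq0 hqq1 Bad pot (by
    rintro h hh ⟨_, hb⟩
    have := hpotw h hh
    linarith) hstep R []
  have hpotq : q ≤ pot [] := by
    simp only [pot, wl_nil]
    rw [max_eq_right (by linarith)]
    apply Nat.le_floor
    rw [le_div_iff₀ hCSV]
    linarith
  refine le_trans ?_ (le_trans hmain (pow_le_pow_of_le_one (by linarith) (by linarith) hpotq))
  apply le_of_eq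
  congr 1

end H34.PS
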