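import Pool.Agent.H34.PS.Base

/-! Stirling bounds for factorials. -/

/- Sketch: `Stirling.sqrt_pi_le_stirlingSeq` (or `Stirling.le_factorial_stirling`) gives
`sqrt (2 π m) (m/e)^m ≤ m!`, which is stronger than `fact_lower`; `Stirling.stirlingSeq'_antitone`
gives `stirlingSeq m ≤ stirlingSeq 1 = e / sqrt 2`, i.e. `fact_upper`. -/

namespace H34.PS

theorem fact_lower (m : ℕ) (hm : 1 ≤ m) :
    Real.sqrt m * ((m : ℝ) / Real.exp 1) ^ m ≤ (m.factorial : ℝ) := by
  refine le_trans ?_ (Stirling.le_factorial_stirling m)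
  have h1 : Real.sqrt m ≤ Real.sqrt (2 * Real.pi * m) := by
    apply Real.sqrt_le_sqrt
    have h2 := Real.pi_gt_three
    have h3 : (0 : ℝ) ≤ m := Nat.cast_nonneg m
    nlinarith
  exact mul_le_mul_of_nonneg_right h1 (by positivity)

theorem fact_upper (m : ℕ) (hm : 1 ≤ m) :
    (m.factorial : ℝ) ≤ Real.exp 1 * Real.sqrt m * ((m : ℝ) / Real.exp 1) ^ m := by
  obtain ⟨k, rfl⟩ : ∃ k, m = k + 1 := ⟨m - 1, by omega⟩
  have h1 : Stirling.stirlingSeq (k + 1) ≤ Real.exp 1 / Real.sqrt 2 := by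
    have h := Stirling.stirlingSeq'_antitone (Nat.zero_le k)
    simp only [Function.comp] at h
    have e : Stirling.stirlingSeq (Nat.succ 0) = Real.exp 1 / Real.sqrt 2 :=
      Stirling.stirlingSeq_one
    rw [e] at h
    exact h
  unfold Stirling.stirlingSeq at h1
  have hk : (0 : ℝ) < ((k + 1 : ℕ) : ℝ) := by exact_mod_cast Nat.succ_pos k
  have hs : 0 < Real.sqrt (2 * ((k + 1 : ℕ) : ℝ)) := Real.sqrt_pos.2 (by positivity)
  have hp : 0 < (((k + 1 : ℕ) : ℝ) / Real.exp 1) ^ (k + 1) := by positivity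
  rw [div_le_iff₀ (mul_pos hs hp)] at h1
  refine h1.trans (le_of_eq ?_)
  rw [Real.sqrt_mul (by norm_num : (0 : ℝ) ≤ 2)]
  have h2 : Real.sqrt 2 ≠ 0 := by positivity
  field_simp

end H34.PS
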